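import Pool.Agent.W981.Aff.Dims
import Pool.Agent.W981.Blk.Ranks

/-!
# Special points for affine families
-/

set_option autoImplicit false
set_option linter.unusedSectionVars false

namespace Pool.Agent.W981.Aff

open Pool.Agent.W981.Hyp Pool.Agent.W981.Blk Module Matrix MvPolynomial

section minors

variable {F : Type*} [Field F] {n m : Type*} [Fintype n] [Fintype m]

theorem exists_rows_le (N : Matrix m n F) {r : ℕ} (hr : r ≤ N.rank) :
    ∃ e : Fin r → m, LinearIndependent F (N.submatrix e id).row := by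
  obtain ⟨e, he⟩ := exists_rows N
  exact ⟨fun i => e (Fin.castLE hr i), he.comp _ (Fin.castLE_injective hr)⟩

theorem exists_minor_le (N : Matrix m n F) {r : ℕ} (hr : r ≤ N.rank) :
    ∃ (e : Fin r → m) (f : Fin r → n), (N.submatrix e f).det ≠ 0 := by
  obtain ⟨e, he⟩ := exists_rows_le N hr
  have h1 : (N.submatrix e id).rank = r := by
    rw [he.rank_matrix, Fintype.card_fin]
  have h2 : r ≤ (N.submatrix e id).transpose.rank := by
    rw [Matrix.rank_transpose, h1]
  obtain ⟨f, hf⟩ := exists_rows_le (N.submatrix e id).transpose h2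
  refine ⟨e, f, ?_⟩
  have h3 : LinearIndependent F (N.submatrix e f).transpose.row := hf
  have h4 := Matrix.linearIndependent_rows_iff_isUnit.1 h3
  rw [Matrix.isUnit_iff_isUnit_det, Matrix.det_transpose] at h4
  exact h4.ne_zero

end minors

section polys

variable {τ K : Type*} [Field K] {n m : Type*} [Fintype n] [Fintype m]

theorem det_deg {r d : ℕ} (M : Matrix (Fin r) (Fin r) (MvPolynomial τ K))
    (hM : ∀ i j, (M i j).totalDegree ≤ d) : M.det.totalDegree ≤ r * d := by
  rw [Matrix.det_apply]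
  refine (totalDegree_finsetSum _ _).trans (Finset.sup_le fun π _ => ?_)
  have h1 : (∏ i, M (π i) i).totalDegree ≤ r * d := by
    refine (totalDegree_finsetProd _ _).trans ?_
    refine (Finset.sum_le_sum fun i _ => hM (π i) i).trans ?_
    simp
  rcases Int.units_eq_one_or (Equiv.Perm.sign π) with h | h
  · rw [h, one_smul]
    exact h1
  · rw [h, Units.neg_smul, one_smul, totalDegree_neg]
    exact h1

/-- the rank over the field of rational functions -/
noncomputable def rk (M : Matrix m n (MvPolynomial τ K)) : ℕ :=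
  (M.map (algebraMap (MvPolynomial τ K) (FF τ K))).rank

theorem det_map_sub (M : Matrix m n (MvPolynomial τ K)) {S : Type*} [CommRing S]
    (g : MvPolynomial τ K →+* S) {r : ℕ} (e : Fin r → m) (f : Fin r → n) :
    ((M.map g).submatrix e f).det = g (M.submatrix e f).det := by
  rw [RingHom.map_det]
  rfl

theorem exists_poly_minor (M : Matrix m n (MvPolynomial τ K)) {r : ℕ} (hr : r ≤ rk M) :
    ∃ (e : Fin r → m) (f : Fin r → n), (M.submatrix e f).det ≠ 0 := by
  obtain ⟨e, f, h⟩ := exists_minor_le _ hr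
  refine ⟨e, f, fun h5 => h ?_⟩
  rw [det_map_sub, h5, map_zero]

theorem le_rk (M : Matrix m n (MvPolynomial τ K)) {r : ℕ} (e : Fin r → m) (f : Fin r → n)
    (h : (M.submatrix e f).det ≠ 0) : r ≤ rk M := by
  refine le_rank_of_minor _ e f ?_
  rw [det_map_sub, Ne, FaithfulSMul.algebraMap_eq_zero_iff]
  exact h

/-- The rank at a point is at most the generic rank. -/
theorem eval_rank_le (M : Matrix m n (MvPolynomial τ K)) (c : τ → K) :
    (M.map (eval c)).rank ≤ rk M := by
  obtain ⟨e, f, h⟩ := exists_minor (M.map (eval c))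
  refine le_rk _ e f fun h2 => h ?_
  rw [det_map_sub, h2, map_zero]

/-- If the rank is at least `r` then this is seen at a point of small weight. -/
theorem exists_small_point [CharZero K] [Fintype τ] (M : Matrix m n (MvPolynomial τ K)) {r d : ℕ}
    (hr : r ≤ rk M) (hd : ∀ i j, (M i j).totalDegree ≤ d) :
    ∃ lam : τ → ℕ, ∑ k, lam k ≤ r * d ∧ r ≤ (M.map (eval fun k => (lam k : K))).rank := by
  classical
  obtain ⟨e, f, h⟩ := exists_poly_minor M hr
  obtain ⟨P, hP⟩ : ∃ P, P = (M.submatrix e f).det := ⟨_, rfl⟩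
  rw [← hP] at h
  have hdeg : P.totalDegree ≤ r * d := by
    rw [hP]
    exact det_deg _ fun i j => hd _ _
  obtain ⟨t, ht, htd⟩ := exists_top_monomial h
  obtain ⟨s, hs, hs2⟩ := combinatorial_nullstellensatz_exists_eval_nonzero P t ht htd
    (fun i => (Finset.range (t i + 1)).image (Nat.cast : ℕ → K)) (fun i => by
      rw [Finset.card_image_of_injective _ Nat.cast_injective, Finset.card_range]
      exact Nat.lt_succ_self _)
  have hs' : ∀ i, ∃ l : ℕ, l ≤ t i ∧ (l : K) = s i := by
    intro i
    obtain ⟨l, hl, hl2⟩ := Finset.mem_image.1 (hs i)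
    exact ⟨l, Nat.lt_succ_iff.1 (Finset.mem_range.1 hl), hl2⟩
  choose lam hlam hlam2 using hs'
  refine ⟨lam, ?_, ?_⟩
  · calc ∑ k, lam k ≤ ∑ k, t k := Finset.sum_le_sum fun k _ => hlam k
      _ = t.degree := by
        rw [Finsupp.degree_eq_sum]
      _ ≤ r * d := by rw [← htd]; exact hdeg
  · have h3 : s = fun k => (lam k : K) := funext fun k => (hlam2 k).symm
    rw [h3, hP] at hs2
    refine le_rank_of_minor _ e f ?_
    rw [det_map_sub]
    exact hs2

end polys

section points

variable {σ K : Type*} [Field K] [DecidableEq σ] [Fintype σ] {n m : Type*} [Fintype n] [Fintype m]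

/-- the affine symbolic matrix -/
noncomputable def afs (B : Matrix m n K) (A : σ → Matrix m n K) :
    Matrix m n (MvPolynomial σ K) := B.map C + sym A

theorem gaf_eq_afs (B : Matrix m n K) (A : σ → Matrix m n K) :
    gaf B A = (afs B A).map (algebraMap (MvPolynomial σ K) (FF σ K)) := by
  rw [gaf, afs, gen_eq_sym]
  ext i j
  simp only [Matrix.map_apply, Matrix.add_apply, map_add, Pool.Agent.W981.Hyp.algebraMap_C]

theorem rank_gaf (B : Matrix m n K) (A : σ → Matrix m n K) : (gaf B A).rank = rk (afs B A) := by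
  rw [gaf_eq_afs, rk]

theorem eval_afs (B : Matrix m n K) (A : σ → Matrix m n K) (c : σ → K) :
    (afs B A).map (eval c) = B + ∑ k, c k • A k := by
  rw [← eval_sym, afs]
  ext i j
  simp only [Matrix.map_apply, Matrix.add_apply, map_add, eval_C]

theorem afs_entry (B : Matrix m n K) (A : σ → Matrix m n K) (i : m) (j : n) :
    (afs B A i j).totalDegree ≤ 1 := by
  rw [afs, Matrix.add_apply, Matrix.map_apply]
  refine (totalDegree_add _ _).trans (max_le ?_ (sym_entry A i j))
  rw [totalDegree_C]
  exact Nat.zero_le _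

theorem gaf_point_le (B : Matrix m n K) (A : σ → Matrix m n K) (lam : σ → K) :
    (B + ∑ k, lam k • A k).rank ≤ (gaf B A).rank := by
  rw [rank_gaf, ← eval_afs]
  exact eval_rank_le _ _

theorem gaf_special_point [CharZero K] (B : Matrix m n K) (A : σ → Matrix m n K) :
    ∃ lam : σ → ℕ, ∑ k, lam k ≤ (gaf B A).rank ∧
      (gaf B A).rank ≤ (B + ∑ k, (lam k : K) • A k).rank := by
  obtain ⟨lam, h1, h2⟩ := exists_small_point (afs B A) (rank_gaf B A).le (afs_entry B A)
  rw [mul_one] at h1
  rw [eval_afs] at h2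
  exact ⟨lam, h1, h2⟩

theorem imB_map_le (B : Matrix m n K) (A : σ → Matrix m n K) (U : Submodule K (n → K))
    (lam : σ → K) : U.map (B + ∑ k, lam k • A k).mulVecLin ≤ imB B A U := by
  rintro _ ⟨x, hx, rfl⟩
  rw [mulVecLin_apply, Matrix.add_mulVec, Matrix.sum_mulVec]
  refine Submodule.add_mem _ ?_ (Submodule.sum_mem _ fun k _ => ?_)
  · exact Submodule.mem_sup_left (Submodule.mem_map_of_mem (f := B.mulVecLin) hx)
  · rw [smul_mulVec]
    exact Submodule.smul_mem _ _ (Submodule.mem_sup_right (mem_im hx k))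

/-- the two ranks of the block as ranks of the same family -/
theorem two_ranks (B : Matrix m n K) (A : σ → Matrix m n K) {U₁ U₂ : Submodule K (n → K)}
    (h : U₁ ≤ U₂) : ∃ (d : ℕ) (B' : Matrix m (Fin d) K) (A' : σ → Matrix m (Fin d) K),
      finrank K U₁ + d = finrank K U₂ ∧
      finrank (FF σ K) ((ext (FF σ K) U₂).map (gaf B A).mulVecLin ⊔ ext (FF σ K) (imB B A U₁) :
        Submodule (FF σ K) (m → FF σ K)) = finrank K (imB B A U₁) + (gaf B' A').rank ∧
      ∀ lam : σ → K, finrank K (U₂.map (B + ∑ k, lam k • A k).mulVecLin ⊔ imB B A U₁ :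
        Submodule K (m → K)) = finrank K (imB B A U₁) + (B' + ∑ k, lam k • A' k).rank := by
  classical
  obtain ⟨d, P, hd, hP, hPF⟩ := exists_columns h
  obtain ⟨Φ, h1, h2⟩ := exists_ker (imB B A U₁)
  refine ⟨d, Φ * B * P, fun k => Φ * A k * P, hd, ?_, fun lam => ?_⟩
  · have e1 := blk_rank (gaf B A).mulVecLin (Φ.map (algebraMap K (FF σ K))).mulVecLin
      (P.map (algebraMap K (FF σ K))).mulVecLin (ext (FF σ K) U₁) (ext (FF σ K) U₂)
      (ext (FF σ K) (imB B A U₁)) (ker_ext h1 h2) (hPF (FF σ K)) (map_gaf_le B A U₁)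
    rw [e1, finrank_ext]
    congr 1
    rw [← mulVecLin_mul, ← mulVecLin_mul]
    have e2 : gaf (Φ * B * P) (fun k => Φ * A k * P) = Φ.map (algebraMap K (FF σ K)) *
        (gaf B A * P.map (algebraMap K (FF σ K))) := by
      rw [gaf, gaf, Matrix.add_mul, Matrix.mul_add]
      congr 1
      · rw [Matrix.map_mul, Matrix.map_mul, Matrix.mul_assoc]
      · rw [gen, gen, Matrix.sum_mul, Matrix.mul_sum]
        refine Finset.sum_congr rfl fun k _ => ?_
        rw [Matrix.map_mul, Matrix.map_mul, Matrix.smul_mul, Matrix.mul_smul, Matrix.mul_assoc]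
    rw [e2]
    rfl
  · have hker : LinearMap.ker Φ.mulVecLin = imB B A U₁ := by
      ext y
      constructor
      · intro hy
        have h3 : Φ *ᵥ y = 0 := hy
        have h4 := h2 y
        rwa [h3, sub_zero] at h4
      · intro hy
        exact h1 y hy
    have e1 := blk_rank (B + ∑ k, lam k • A k).mulVecLin Φ.mulVecLin P.mulVecLin U₁ U₂
      (imB B A U₁) hker hP (imB_map_le B A U₁ lam)
    rw [e1]
    congr 1
    rw [← mulVecLin_mul, ← mulVecLin_mul]
    have e2 : Φ * B * P + ∑ k, lam k • (Φ * A k * P) = Φ * ((B + ∑ k, lam k • A k) * P) := by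
      rw [Matrix.add_mul, Matrix.mul_add, Matrix.sum_mul, Matrix.mul_sum, Matrix.mul_assoc]
      congr 1
      refine Finset.sum_congr rfl fun k _ => ?_
      rw [Matrix.smul_mul, Matrix.mul_smul, Matrix.mul_assoc]
    rw [e2]
    rfl

theorem blk_le (B : Matrix m n K) (A : σ → Matrix m n K) {U₁ U₂ : Submodule K (n → K)}
    (h : U₁ ≤ U₂) (lam : σ → K) :
    finrank K (U₂.map (B + ∑ k, lam k • A k).mulVecLin ⊔ imB B A U₁ : Submodule K (m → K)) ≤
      finrank (FF σ K) ((ext (FF σ K) U₂).map (gaf B A).mulVecLin ⊔ ext (FF σ K) (imB B A U₁) :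
        Submodule (FF σ K) (m → FF σ K)) := by
  obtain ⟨d, B', A', -, h1, h2⟩ := two_ranks B A h
  rw [h1, h2]
  exact Nat.add_le_add_left (gaf_point_le B' A' lam) _

theorem blk_point [CharZero K] (B : Matrix m n K) (A : σ → Matrix m n K)
    {U₁ U₂ : Submodule K (n → K)}
    (h : U₁ ≤ U₂) : ∃ lam : σ → ℕ, finrank K U₁ + ∑ k, lam k ≤ finrank K U₂ ∧
      finrank K (U₂.map (B + ∑ k, (lam k : K) • A k).mulVecLin ⊔ imB B A U₁ :
        Submodule K (m → K)) =
      finrank (FF σ K) ((ext (FF σ K) U₂).map (gaf B A).mulVecLin ⊔ ext (FF σ K) (imB B A U₁) :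
        Submodule (FF σ K) (m → FF σ K)) := by
  obtain ⟨d, B', A', hd, h1, h2⟩ := two_ranks B A h
  obtain ⟨lam, hl1, hl2⟩ := gaf_special_point B' A'
  refine ⟨lam, ?_, le_antisymm (blk_le B A h _) ?_⟩
  · have h3 : (gaf B' A').rank ≤ d := by simpa using (gaf B' A').rank_le_card_width
    omega
  · rw [h1, h2]
    exact Nat.add_le_add_left hl2 _

/-- the upper bound for all pairs -/
theorem pair_upper (B : Matrix m n K) (A : σ → Matrix m n K) (U₁ U₂ : Submodule K (n → K)) :
    (gaf B A).rank + finrank K U₂ ≤ Fintype.card n +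
      finrank (FF σ K) ((ext (FF σ K) U₂).map (gaf B A).mulVecLin ⊔ ext (FF σ K) (imB B A U₁) :
        Submodule (FF σ K) (m → FF σ K)) := by
  have h1 := finrank_map_add (gaf B A).mulVecLin (ext (FF σ K) U₂)
  have h2 := Submodule.finrank_mono (le_sup_left :
    (ext (FF σ K) U₂).map (gaf B A).mulVecLin ≤ _ ⊔ ext (FF σ K) (imB B A U₁))
  have h3 : finrank (FF σ K) (LinearMap.ker (gaf B A).mulVecLin ⊓ ext (FF σ K) U₂ :
      Submodule (FF σ K) (n → FF σ K)) ≤ finrank (FF σ K) (LinearMap.ker (gaf B A).mulVecLin) :=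
    Submodule.finrank_mono inf_le_left
  have h4 := LinearMap.finrank_range_add_finrank_ker (gaf B A).mulVecLin
  rw [finrank_fintype_fun_eq_card] at h4
  change (gaf B A).rank + _ = _ at h4
  rw [finrank_ext] at h1
  omega

/-- **The block theorem for affine families.** -/
theorem blocks [CharZero K] (B : Matrix m n K) (A : σ → Matrix m n K) (R : Set (Matrix m n K))
    (hR : ∀ T ∈ R, T.rank ≤ 1)
    (hA : ∀ k, A k ∈ Submodule.span K R) (c : ℕ)
    (hc : finrank K (Submodule.span K R) ≤ finrank K (Submodule.span K (Set.range A)) + c) :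
    ∃ U₁ U₂ : Submodule K (n → K), U₁ ≤ U₂ ∧
      finrank K U₂ ≤ finrank K U₁ + 16 * c ∧
      finrank K (imB B A U₂) ≤ finrank K (imB B A U₁) + 17 * c ∧
      (gaf B A).rank + finrank K U₂ = Fintype.card n +
        finrank (FF σ K) ((ext (FF σ K) U₂).map (gaf B A).mulVecLin ⊔
          ext (FF σ K) (imB B A U₁) : Submodule (FF σ K) (m → FF σ K)) := by
  obtain ⟨T, hTR, hTs, -⟩ := Submodule.exists_fun_fin_finrank_span_eq K R
  have huv : ∀ i, ∃ u v, T i = vecMulVec u v := fun i => exists_vecMulVec (hR _ (hTR i))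
  choose u v huv using huv
  have hA' : ∀ k, ∃ a : Fin (finrank K (Submodule.span K R)) → K,
      ∑ i, a i • T i = A k := by
    intro k
    have := hA k
    rw [← hTs] at this
    exact (Submodule.mem_span_range_iff_exists_fun K).1 this
  choose a ha using hA'
  have hc' : Fintype.card (Fin (finrank K (Submodule.span K R))) ≤ finrank K (WW a) + c := by
    rw [Fintype.card_fin]
    refine hc.trans (Nat.add_le_add_right ?_ _)
    have h3 : Submodule.span K (Set.range A) ≤
        (WW a).map (Fintype.linearCombination K T) := by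
      rw [Submodule.span_le]
      rintro _ ⟨k, rfl⟩
      exact ⟨a k, Submodule.subset_span ⟨k, rfl⟩, ha k⟩
    exact (Submodule.finrank_mono h3).trans (Submodule.finrank_map_le _ _)
  have hinfK : Infinite K := CharZero.infinite K
  have hinf : Infinite (FF σ K) := Infinite.of_injective (algebraMap K (FF σ K))
    (algebraMap K (FF σ K)).injective
  obtain ⟨X, w, z, h⟩ := exists_datA B A u v a (fun k => by
    rw [← ha k]
    exact Finset.sum_congr rfl fun i _ => by rw [huv i])
  have h2' : (2 : FF σ K) ≠ 0 := by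
    have : (2 : FF σ K) = algebraMap K (FF σ K) 2 := by rw [map_ofNat]
    rw [this, Ne, map_eq_zero]
    exact two_ne_zero
  exact ⟨U1 X u v w, X, fun _ hx => hx.1, h.dim_U h2' hc', h.dim_E h2' hc', h.cert⟩

end points

section mixed

variable {β σ K : Type*} [Field K] [CharZero K] [Fintype β] [DecidableEq σ] [Fintype σ]
  {n m : Type*} [Fintype n] [Fintype m]

/-- the matrix `B(s) + ∑ t_k A_k(s)` -/
noncomputable def mix (B : Matrix m n (MvPolynomial β K))
    (A : σ → Matrix m n (MvPolynomial β K)) : Matrix m n (MvPolynomial (β ⊕ σ) K) :=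
  B.map (rename Sum.inl) + ∑ k, (X (Sum.inr k) : MvPolynomial (β ⊕ σ) K) •
    (A k).map (rename Sum.inl)

theorem eval_mix (B : Matrix m n (MvPolynomial β K)) (A : σ → Matrix m n (MvPolynomial β K))
    (s : β → K) (lam : σ → K) : (mix B A).map (eval (Sum.elim s lam)) =
      B.map (eval s) + ∑ k, lam k • (A k).map (eval s) := by
  ext i j
  simp only [mix, Matrix.map_apply, Matrix.add_apply, Matrix.sum_apply, Matrix.smul_apply,
    smul_eq_mul, map_add, map_sum, map_mul, eval_X, eval_rename, Sum.elim_inr, Sum.elim_comp_inl]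

theorem mix_entry (B : Matrix m n (MvPolynomial β K)) (A : σ → Matrix m n (MvPolynomial β K))
    {d : ℕ} (hB : ∀ i j, (B i j).totalDegree ≤ d + 1) (hA : ∀ k i j, (A k i j).totalDegree ≤ d)
    (i : m) (j : n) : (mix B A i j).totalDegree ≤ d + 1 := by
  rw [mix, Matrix.add_apply, Matrix.map_apply, Matrix.sum_apply]
  refine (totalDegree_add _ _).trans (max_le ((totalDegree_rename_le _ _).trans (hB i j)) ?_)
  refine (totalDegree_finsetSum _ _).trans (Finset.sup_le fun k _ => ?_)
  rw [Matrix.smul_apply, Matrix.map_apply, smul_eq_mul]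
  refine (totalDegree_mul _ _).trans ?_
  rw [totalDegree_X, add_comm]
  exact Nat.add_le_add_right ((totalDegree_rename_le _ _).trans (hA k i j)) 1

/-- the specialisation of `s` does not increase the rank -/
theorem rank_spec_le (B : Matrix m n (MvPolynomial β K)) (A : σ → Matrix m n (MvPolynomial β K))
    (s : β → K) : (gaf (B.map (eval s)) fun k => (A k).map (eval s)).rank ≤ rk (mix B A) := by
  obtain ⟨lam, -, h⟩ := gaf_special_point (B.map (eval s)) fun k => (A k).map (eval s)
  refine h.trans ?_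
  rw [← eval_mix]
  exact eval_rank_le _ _

/-- the rank is the rank at a small point `s` -/
theorem exists_spec (B : Matrix m n (MvPolynomial β K)) (A : σ → Matrix m n (MvPolynomial β K))
    {d r : ℕ} (hB : ∀ i j, (B i j).totalDegree ≤ d + 1) (hA : ∀ k i j, (A k i j).totalDegree ≤ d)
    (hr : r ≤ rk (mix B A)) :
    ∃ s : β → ℕ, ∑ l, s l ≤ r * (d + 1) ∧
      r ≤ (gaf (B.map (eval fun l => (s l : K)))
        fun k => (A k).map (eval fun l => (s l : K))).rank := by
  obtain ⟨lam, h1, h2⟩ := exists_small_point (mix B A) hr (mix_entry B A hB hA)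
  rw [Fintype.sum_sum_type] at h1
  refine ⟨fun l => lam (Sum.inl l), le_trans (Nat.le_add_right _ _) h1, h2.trans ?_⟩
  have h3 : (fun k => (lam k : K)) = Sum.elim (fun l => (lam (Sum.inl l) : K))
      (fun k => (lam (Sum.inr k) : K)) := by
    funext k
    rcases k with k | k <;> rfl
  rw [h3, eval_mix]
  exact gaf_point_le _ _ _

end mixed

end Pool.Agent.W981.Aff
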