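import Pool.Agent.W981.Aff.Pivots

/-!
# Skew maps which are almost derivations have small rank
-/

set_option autoImplicit false
set_option linter.unusedSectionVars false

namespace Pool.Agent.W981.Aff

open Pool.Agent.W981.Hyp Pool.Agent.W981.Blk Module Matrix

variable {F ι P : Type*} [Field F] [Fintype ι] [AddCommGroup P] [Module F P]
  [FiniteDimensional F P]

/-- The identities. -/
structure Alg (η : ι → F) (κ s : P →ₗ[F] (ι → F)) : Prop where
  hη : ∀ i, η i = 0 → ∀ b, s b i = 0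
  h1 : ∀ b c, κ c ⬝ᵥ (η * s b) + κ b ⬝ᵥ (η * s c) = 0
  h3 : ∀ a b c, κ a ⬝ᵥ (η * (s b * s c)) + κ b ⬝ᵥ (η * (s a * s c)) +
    κ c ⬝ᵥ (η * (s a * s b)) = 0

theorem mul_sum_left (η : ι → F) {τ : Type*} (t : Finset τ) (f : τ → ι → F) :
    η * ∑ p ∈ t, f p = ∑ p ∈ t, η * f p := Finset.mul_sum _ _ _

theorem mul_smul_fun (η : ι → F) (c : F) (f : ι → F) : η * (c • f) = c • (η * f) :=
  mul_smul_comm c η f

/-- pivots of the range of `s` -/
structure Piv (s : P →ₗ[F] (ι → F)) {ρ : ℕ} (e : Fin ρ → ι) (β : Fin ρ → P) : Prop where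
  h1 : ∀ p q, s (β p) (e q) = if p = q then 1 else 0
  h2 : ∀ b, s b = ∑ p, s b (e p) • s (β p)

theorem exists_piv (s : P →ₗ[F] (ι → F)) :
    ∃ (ρ : ℕ) (e : Fin ρ → ι) (β : Fin ρ → P), finrank F (LinearMap.range s) = ρ ∧ Piv s e β := by
  obtain ⟨ρ, e, b, h0, h1, h2, h3⟩ := exists_pivots (LinearMap.range s)
  choose β hβ using h1
  exact ⟨ρ, e, β, h0, ⟨fun p q => by rw [hβ]; exact h2 p q, fun x => by
    rw [h3 (s x) ⟨x, rfl⟩]
    refine Finset.sum_congr rfl fun p _ => ?_
    rw [hβ, ← h3 (s x) ⟨x, rfl⟩]⟩⟩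

section

variable {η : ι → F} {κ s : P →ₗ[F] (ι → F)} {ρ : ℕ} {e : Fin ρ → ι} {β : Fin ρ → P}

theorem Piv.inj (h : Piv s e β) : Function.Injective e := by
  intro p q hpq
  by_contra hne
  have h1 := h.h1 p q
  have h2 := h.h1 p p
  rw [← hpq, h2, if_pos rfl, if_neg hne] at h1
  exact one_ne_zero h1

theorem Alg.eta_ne (h : Alg η κ s) (hp : Piv s e β) (p : Fin ρ) : η (e p) ≠ 0 := by
  intro h0
  have h1 := h.hη _ h0 (β p)
  rw [hp.h1, if_pos rfl] at h1
  exact one_ne_zero h1

/-- the error terms -/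
def mu (s : P →ₗ[F] (ι → F)) (β : Fin ρ → P) (p q : Fin ρ) : ι → F :=
  s (β p) * s (β q) - (if p = q then (1 : F) else 0) • s (β p)

/-- the functionals `θ_p` -/
def th (η : ι → F) (κ s : P →ₗ[F] (ι → F)) (β : Fin ρ → P) (p : Fin ρ) (a : P) : F :=
  κ a ⬝ᵥ (η * s (β p))

theorem mu_e (hp : Piv s e β) (p q r : Fin ρ) : mu s β p q (e r) = 0 := by
  rw [mu, Pi.sub_apply, Pi.mul_apply, Pi.smul_apply, hp.h1, hp.h1, smul_eq_mul]
  by_cases h1 : p = r
  · by_cases h2 : q = r
    · subst h1; subst h2; simp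
    · rw [if_neg h2, if_neg (show ¬ p = q from fun h => h2 (by rw [← h, h1]))]
      ring
  · rw [if_neg h1]
    ring

theorem Alg.ker_th (h : Alg η κ s) {c : P} (hc : s c = 0) (b : P) : κ c ⬝ᵥ (η * s b) = 0 := by
  have := h.h1 b c
  rwa [hc, mul_zero, dotProduct_zero, add_zero] at this

theorem Alg.ker_mul (h : Alg η κ s) {c : P} (hc : s c = 0) (a b : P) :
    κ c ⬝ᵥ (η * (s a * s b)) = 0 := by
  have := h.h3 c a b
  rwa [hc, zero_mul, zero_mul, mul_zero, dotProduct_zero, dotProduct_zero, add_zero,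
    add_zero] at this

theorem Alg.ker_mu (h : Alg η κ s) {c : P} (hc : s c = 0) (p q : Fin ρ) :
    κ c ⬝ᵥ (η * mu s β p q) = 0 := by
  rw [mu, mul_sub, dotProduct_sub, h.ker_mul hc, mul_smul_fun, dotProduct_smul, h.ker_th hc,
    smul_zero, sub_zero]

/-- the span of the error terms -/
def MM (η : ι → F) (s : P →ₗ[F] (ι → F)) (β : Fin ρ → P) : Submodule F (ι → F) :=
  Submodule.span F (Set.range fun pq : Fin ρ × Fin ρ => η * mu s β pq.1 pq.2)

/-- the first subspace -/
def W2 (η : ι → F) (κ s : P →ₗ[F] (ι → F)) (β : Fin ρ → P) : Submodule F P :=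
  (perp (MM η s β)).comap κ

theorem mem_W2 {a : P} (ha : a ∈ W2 η κ s β) (p q : Fin ρ) : κ a ⬝ᵥ (η * mu s β p q) = 0 :=
  ha _ (Submodule.subset_span ⟨(p, q), rfl⟩)

theorem Alg.finrank_MM (h : Alg η κ s) (hp : Piv s e β) (hρ : finrank F (LinearMap.range s) = ρ)
    {k : ℕ} (hk : Fintype.card ι ≤ finrank F (LinearMap.range κ) + k) :
    finrank F (MM η s β) ≤ k := by
  classical
  set K0 := LinearMap.ker s with hK0
  set D : Submodule F (ι → F) := Submodule.span F
    (Set.range fun p : Fin ρ => (Pi.single (e p) (1 : F) : ι → F)) with hD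
  have hDr : finrank F D = ρ := by
    have h1 : LinearIndependent F (fun p : Fin ρ => (Pi.single (e p) (1 : F) : ι → F)) := by
      have := (Pi.basisFun F ι).linearIndependent.comp e hp.inj
      simpa [Function.comp_def] using this
    rw [hD, finrank_span_eq_card h1, Fintype.card_fin]
  have hDs : ∀ x ∈ D, ∀ i, (∀ p, e p ≠ i) → x i = 0 := by
    intro x hx i hi
    rw [hD] at hx
    induction hx using Submodule.span_induction with
    | mem x hx =>
      obtain ⟨p, rfl⟩ := hx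
      exact Pi.single_eq_of_ne (Ne.symm (hi p)) _
    | zero => rfl
    | add x y _ _ hx hy => rw [Pi.add_apply, hx, hy, add_zero]
    | smul c x _ hx => rw [Pi.smul_apply, hx, smul_zero]
  have hinf : K0.map κ ⊓ D = ⊥ := by
    rw [eq_bot_iff]
    rintro _ ⟨⟨c, hc, rfl⟩, hx⟩
    have hc' : s c = 0 := hc
    rw [Submodule.mem_bot]
    funext i
    by_cases hi : ∀ p, e p ≠ i
    · exact hDs _ hx i hi
    · push Not at hi
      obtain ⟨p, rfl⟩ := hi
      have h1 := h.ker_th hc' (β p)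
      rw [dotProduct, Finset.sum_eq_single (e p)] at h1
      · rw [Pi.mul_apply, hp.h1, if_pos rfl, mul_one] at h1
        exact (mul_eq_zero.1 h1).resolve_right (h.eta_ne hp p)
      · intro i _ hi
        by_cases hi2 : ∀ p, e p ≠ i
        · rw [hDs _ hx i hi2, zero_mul]
        · push Not at hi2
          obtain ⟨q, rfl⟩ := hi2
          rw [Pi.mul_apply, hp.h1, if_neg (fun h0 => hi (by rw [h0])), mul_zero, mul_zero]
      · intro h0
        exact absurd (Finset.mem_univ _) h0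
  have h1 := Submodule.finrank_sup_add_finrank_inf_eq (K0.map κ) D
  rw [hinf, finrank_bot, hDr] at h1
  have h2 := finrank_map_codim κ (S₁ := K0) (S := ⊤) le_top
  rw [Submodule.map_top, finrank_top] at h2
  have h3 := LinearMap.finrank_range_add_finrank_ker s
  rw [hρ, ← hK0] at h3
  have h4 : finrank F (MM η s β) + finrank F (K0.map κ ⊔ D : Submodule F (ι → F)) ≤
      Fintype.card ι := by
    refine finrank_perp_le _ _ ?_
    intro x hx y hy
    obtain ⟨y1, hy1, y2, hy2, rfl⟩ := Submodule.mem_sup.1 hy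
    rw [MM] at hx
    induction hx using Submodule.span_induction with
    | mem x hx =>
      obtain ⟨⟨p, q⟩, rfl⟩ := hx
      obtain ⟨c, hc, rfl⟩ := hy1
      rw [dotProduct_add, dotProduct_comm, h.ker_mu hc, zero_add, dotProduct]
      refine Finset.sum_eq_zero fun i _ => ?_
      by_cases hi : ∀ p, e p ≠ i
      · rw [hDs _ hy2 i hi, mul_zero]
      · push Not at hi
        obtain ⟨r, rfl⟩ := hi
        change η (e r) * mu s β p q (e r) * y2 (e r) = 0
        rw [mu_e hp, mul_zero, zero_mul]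
    | zero => rw [zero_dotProduct]
    | add x y _ _ hx hy => rw [add_dotProduct, hx, hy, add_zero]
    | smul c x _ hx => rw [smul_dotProduct, hx, smul_zero]
  omega

theorem Alg.finrank_W2 (h : Alg η κ s) (hp : Piv s e β)
    (hρ : finrank F (LinearMap.range s) = ρ) {k : ℕ}
    (hk : Fintype.card ι ≤ finrank F (LinearMap.range κ) + k) :
    finrank F P ≤ finrank F (W2 η κ s β) + k := by
  classical
  have h1 := h.finrank_MM hp hρ hk
  have h2 := finrank_comap_le κ ⊤ (perp (MM η s β))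
  have h3 := finrank_perp (MM η s β)
  rw [inf_top_eq, finrank_top, finrank_fintype_fun_eq_card] at h2
  change _ ≤ finrank F (W2 η κ s β) + _ at h2
  omega

theorem pair_eq (hp : Piv s e β) (a b : P) :
    κ a ⬝ᵥ (η * s b) = ∑ p, s b (e p) * th η κ s β p a := by
  conv_lhs => rw [hp.h2 b]
  rw [mul_sum_left, dotProduct_sum]
  refine Finset.sum_congr rfl fun p _ => ?_
  rw [mul_smul_fun, dotProduct_smul, smul_eq_mul, th]

theorem triple_eq (hp : Piv s e β) {a : P} (ha : a ∈ W2 η κ s β) (b c : P) :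
    κ a ⬝ᵥ (η * (s b * s c)) = ∑ p, s b (e p) * s c (e p) * th η κ s β p a := by
  have h1 : s b * s c = ∑ p, ∑ q, (s b (e p) * s c (e q)) • (s (β p) * s (β q)) := by
    conv_lhs => rw [hp.h2 b, hp.h2 c]
    rw [Finset.sum_mul_sum]
    refine Finset.sum_congr rfl fun p _ => Finset.sum_congr rfl fun q _ => ?_
    rw [smul_mul_smul_comm]
  rw [h1, mul_sum_left, dotProduct_sum]
  refine Finset.sum_congr rfl fun p _ => ?_
  rw [mul_sum_left, dotProduct_sum, Finset.sum_eq_single p]
  · rw [mul_smul_fun, dotProduct_smul, smul_eq_mul]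
    congr 1
    have h2 := mem_W2 ha p p
    rw [mu, if_pos rfl, one_smul, mul_sub, dotProduct_sub, sub_eq_zero] at h2
    rw [h2, th]
  · intro q _ hq
    have h2 := mem_W2 ha p q
    rw [mu, if_neg (Ne.symm hq), zero_smul, sub_zero] at h2
    rw [mul_smul_fun, dotProduct_smul, h2, smul_zero]
  · intro h0
    exact absurd (Finset.mem_univ _) h0

end

end Pool.Agent.W981.Aff
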