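import Pool.Agent.W981.Aff.Alg

/-!
# Skew maps which are almost derivations have small rank, second part
-/

set_option autoImplicit false
set_option linter.unusedSectionVars false

namespace Pool.Agent.W981.Aff

open Pool.Agent.W981.Hyp Pool.Agent.W981.Blk Module Matrix

variable {F ι P : Type*} [Field F] [Fintype ι] [AddCommGroup P] [Module F P]
  [FiniteDimensional F P]

section

variable {η : ι → F} {κ s : P →ₗ[F] (ι → F)} {ρ : ℕ} {e : Fin ρ → ι} {β : Fin ρ → P}

/-- the coordinates at the pivots -/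
def sJ (s : P →ₗ[F] (ι → F)) (e : Fin ρ → ι) : P →ₗ[F] (Fin ρ → F) :=
  LinearMap.pi fun p => (LinearMap.proj (e p) : (ι → F) →ₗ[F] F) ∘ₗ s

theorem sJ_apply (b : P) (p : Fin ρ) : sJ s e b p = s b (e p) := rfl

theorem s_eq_of_sJ (hp : Piv s e β) {b c : P} (h : sJ s e b = sJ s e c) : s b = s c := by
  rw [hp.h2 b, hp.h2 c]
  exact Finset.sum_congr rfl fun p _ => by rw [← sJ_apply, h, sJ_apply]

theorem range_sJ (hp : Piv s e β) : LinearMap.range (sJ s e) = ⊤ := by
  classical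
  rw [LinearMap.range_eq_top]
  intro x
  refine ⟨∑ p, x p • β p, ?_⟩
  funext q
  rw [map_sum, Finset.sum_apply, Finset.sum_eq_single q]
  · rw [map_smul, Pi.smul_apply, sJ_apply, hp.h1, if_pos rfl, smul_eq_mul, mul_one]
  · intro p _ hpq
    rw [map_smul, Pi.smul_apply, sJ_apply, hp.h1, if_neg hpq, smul_zero]
  · intro h0
    exact absurd (Finset.mem_univ _) h0

/-- the second choice of pivots -/
structure Piv2 (η : ι → F) (κ s : P →ₗ[F] (ι → F)) (e : Fin ρ → ι) (β : Fin ρ → P)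
    {d : ℕ} (e' : Fin d → Fin ρ) (γ : Fin d → P) : Prop where
  h0 : ∀ j, γ j ∈ W2 η κ s β
  h1 : ∀ j l, s (γ j) (e (e' l)) = if j = l then 1 else 0
  h2 : ∀ b ∈ W2 η κ s β, sJ s e b = ∑ j, s b (e (e' j)) • sJ s e (γ j)

theorem exists_piv2 (h : Alg η κ s) (hp : Piv s e β)
    (hρ : finrank F (LinearMap.range s) = ρ) {k : ℕ}
    (hk : Fintype.card ι ≤ finrank F (LinearMap.range κ) + k) :
    ∃ (d : ℕ) (e' : Fin d → Fin ρ) (γ : Fin d → P), ρ ≤ d + k ∧ Piv2 η κ s e β e' γ := by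
  obtain ⟨d, e', b, h0, h1, h2, h3⟩ := exists_pivots ((W2 η κ s β).map (sJ s e))
  choose γ hγ1 hγ2 using h1
  refine ⟨d, e', γ, ?_, ⟨hγ1, fun j l => ?_, fun b hb => ?_⟩⟩
  · have a1 := h.finrank_W2 hp hρ hk
    have a2 := finrank_map_codim (sJ s e) (S₁ := W2 η κ s β) (S := ⊤) le_top
    rw [Submodule.map_top, range_sJ hp, finrank_top, finrank_top, finrank_fintype_fun_eq_card,
      Fintype.card_fin, h0] at a2
    omega
  · rw [← sJ_apply, hγ2, h2]
  · refine (h3 _ ⟨b, hb, rfl⟩).trans (Finset.sum_congr rfl fun j _ => ?_)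
    rw [hγ2, sJ_apply]

variable {d : ℕ} {e' : Fin d → Fin ρ} {γ : Fin d → P}

theorem Piv2.inj (h : Piv2 η κ s e β e' γ) : Function.Injective e' := by
  intro p q hpq
  by_contra hne
  have h1 := h.h1 p q
  have h2 := h.h1 p p
  rw [← hpq, h2, if_pos rfl, if_neg hne] at h1
  exact one_ne_zero h1

/-- the positions which are not pivots -/
abbrev Jc (e' : Fin d → Fin ρ) := {p : Fin ρ // p ∉ Set.range e'}

theorem card_Jc (h : Piv2 η κ s e β e' γ) [Fintype (Jc e')] :
    Fintype.card (Jc e') + d = ρ := by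
  classical
  have h1 : Fintype.card (Set.range e') = d := by
    rw [Set.card_range_of_injective h.inj, Fintype.card_fin]
  have h2 := Fintype.card_subtype_compl (fun p => p ∈ Set.range e')
  have h3 : Fintype.card {p : Fin ρ // p ∈ Set.range e'} ≤ Fintype.card (Fin ρ) :=
    Fintype.card_subtype_le _
  rw [Fintype.card_fin] at h2 h3
  have h4 : Fintype.card {p : Fin ρ // p ∈ Set.range e'} = d :=
    (Fintype.card_congr (Equiv.refl _)).trans h1
  have h5 : Fintype.card (Jc e') = Fintype.card {p : Fin ρ // ¬ p ∈ Set.range e'} :=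
    Fintype.card_congr (Equiv.refl _)
  omega

theorem split_sum (h : Piv2 η κ s e β e' γ) [Fintype (Jc e')] (f : Fin ρ → F) :
    ∑ p, f p = ∑ j, f (e' j) + ∑ p : Jc e', f p := by
  classical
  have h1 : ∑ j, f (e' j) = ∑ p ∈ Finset.univ.filter (fun p => p ∈ Set.range e'), f p := by
    have h2 : Finset.univ.filter (fun p => p ∈ Set.range e') = Finset.univ.image e' := by
      ext p
      simp [eq_comm]
    rw [h2, Finset.sum_image fun i _ j _ hij => h.inj hij]
  have h3 : ∑ p : Jc e', f p = ∑ p ∈ Finset.univ.filter (fun p => p ∉ Set.range e'), f p :=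
    (Finset.sum_subtype _ (fun p => by
      rw [Finset.mem_filter]
      exact ⟨fun h => h.2, fun h => ⟨Finset.mem_univ _, h⟩⟩) f).symm
  rw [h1, h3, Finset.sum_filter_add_sum_filter_not]

/-- the entries of the skew form -/
def al (η : ι → F) (κ s : P →ₗ[F] (ι → F)) (γ : Fin d → P) (j l : Fin d) : F :=
  κ (γ l) ⬝ᵥ (η * s (γ j))

/-- the matrix of small rank -/
def YY (η : ι → F) (κ s : P →ₗ[F] (ι → F)) (e : Fin ρ → ι) (β : Fin ρ → P) (e' : Fin d → Fin ρ)
    (γ : Fin d → P) [Fintype (Jc e')] (j l : Fin d) : F :=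
  ∑ p : Jc e', ((s (γ j) (e p) - s (γ j) (e p) * s (γ j) (e p)) * th η κ s β p (γ l) -
    2 * (s (γ j) (e p) * th η κ s β p (γ j)) * s (γ l) (e p))

theorem al_eq (h : Alg η κ s) (hp : Piv s e β) (h' : Piv2 η κ s e β e' γ) [Fintype (Jc e')]
    {j l : Fin d} (hjl : j ≠ l) : al η κ s γ j l = YY η κ s e β e' γ j l := by
  have h3 := h.h3 (γ j) (γ j) (γ l)
  rw [triple_eq hp (h'.h0 j), triple_eq hp (h'.h0 l), split_sum h',
    split_sum h' (fun p => s (γ j) (e p) * s (γ j) (e p) * th η κ s β p (γ l))] at h3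
  have e1 : ∑ i, s (γ j) (e (e' i)) * s (γ l) (e (e' i)) * th η κ s β (e' i) (γ j) = 0 := by
    refine Finset.sum_eq_zero fun i _ => ?_
    rw [h'.h1, h'.h1]
    by_cases hi : j = i
    · rw [if_neg (fun h0 : l = i => hjl (by rw [hi, h0])), mul_zero, zero_mul]
    · rw [if_neg hi, zero_mul, zero_mul]
  have e2 : ∑ i, s (γ j) (e (e' i)) * s (γ j) (e (e' i)) * th η κ s β (e' i) (γ l) =
      th η κ s β (e' j) (γ l) := by
    rw [Finset.sum_eq_single j]
    · rw [h'.h1, if_pos rfl, one_mul, one_mul]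
    · intro i _ hi
      rw [h'.h1, if_neg (Ne.symm hi), zero_mul, zero_mul]
    · intro h0
      exact absurd (Finset.mem_univ _) h0
  have e3 : ∑ i, s (γ j) (e (e' i)) * th η κ s β (e' i) (γ l) = th η κ s β (e' j) (γ l) := by
    rw [Finset.sum_eq_single j]
    · rw [h'.h1, if_pos rfl, one_mul]
    · intro i _ hi
      rw [h'.h1, if_neg (Ne.symm hi), zero_mul]
    · intro h0
      exact absurd (Finset.mem_univ _) h0
  rw [e1, e2] at h3
  rw [al, pair_eq hp, split_sum h', e3, YY]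
  simp only [sub_mul, Finset.sum_sub_distrib]
  have e4 : ∑ p : Jc e', 2 * (s (γ j) (e p) * th η κ s β p (γ j)) * s (γ l) (e p) =
      2 * ∑ p : Jc e', s (γ j) (e p) * s (γ l) (e p) * th η κ s β p (γ j) := by
    rw [Finset.mul_sum]
    exact Finset.sum_congr rfl fun p _ => by ring
  rw [e4]
  linear_combination h3

theorem al_skew (h : Alg η κ s) (j l : Fin d) : al η κ s γ j l = -al η κ s γ l j := by
  have := h.h1 (γ j) (γ l)
  exact eq_neg_of_add_eq_zero_left this

theorem two_al (h : Alg η κ s) (hp : Piv s e β) (h' : Piv2 η κ s e β e' γ) [Fintype (Jc e')]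
    (j l : Fin d) :
    2 * al η κ s γ j l = YY η κ s e β e' γ j l - YY η κ s e β e' γ l j := by
  by_cases hjl : j = l
  · subst hjl
    have := al_skew (γ := γ) h j j
    linear_combination this
  · rw [← al_eq h hp h' hjl, ← al_eq h hp h' (Ne.symm hjl), al_skew (γ := γ) h l j]
    ring

/-- the coefficients of the conditions -/
def CC (η : ι → F) (κ s : P →ₗ[F] (ι → F)) (e : Fin ρ → ι) (β : Fin ρ → P) (e' : Fin d → Fin ρ)
    (γ : Fin d → P) (t : Fin 4) (p : Jc e') (j : Fin d) : F :=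
  ![s (γ j) (e p) - s (γ j) (e p) * s (γ j) (e p), s (γ j) (e p) * th η κ s β p (γ j),
    th η κ s β p (γ j), s (γ j) (e p)] t

/-- the conditions -/
def Lam (η : ι → F) (κ s : P →ₗ[F] (ι → F)) (e : Fin ρ → ι) (β : Fin ρ → P) (e' : Fin d → Fin ρ)
    (γ : Fin d → P) : P →ₗ[F] (Fin 4 × Jc e' → F) :=
  LinearMap.pi fun tp => ∑ j, CC η κ s e β e' γ tp.1 tp.2 j •
    ((LinearMap.proj (e' j) : (Fin ρ → F) →ₗ[F] F) ∘ₗ sJ s e)

theorem Lam_apply (b : P) (t : Fin 4) (p : Jc e') : Lam η κ s e β e' γ b (t, p) =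
    ∑ j, CC η κ s e β e' γ t p j * s b (e (e' j)) := by
  rw [Lam, LinearMap.pi_apply, LinearMap.sum_apply]
  rfl

theorem sum_YY [Fintype (Jc e')] {b : P} (hb : Lam η κ s e β e' γ b = 0) (l : Fin d) :
    ∑ j, s b (e (e' j)) * YY η κ s e β e' γ j l = 0 := by
  have e0 : ∀ t p, ∑ j, CC η κ s e β e' γ t p j * s b (e (e' j)) = 0 := fun t p => by
    rw [← Lam_apply, hb]
    rfl
  simp only [YY, Finset.mul_sum]
  rw [Finset.sum_comm]
  refine Finset.sum_eq_zero fun p _ => ?_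
  have h1 := e0 0 p
  have h2 := e0 1 p
  simp only [CC, Matrix.cons_val_zero, Matrix.cons_val_one] at h1 h2
  have e1 : ∑ j, s b (e (e' j)) * ((s (γ j) (e p) - s (γ j) (e p) * s (γ j) (e p)) *
      th η κ s β p (γ l) - 2 * (s (γ j) (e p) * th η κ s β p (γ j)) * s (γ l) (e p)) =
      (∑ j, (s (γ j) (e p) - s (γ j) (e p) * s (γ j) (e p)) * s b (e (e' j))) *
        th η κ s β p (γ l) -
      2 * (∑ j, s (γ j) (e p) * th η κ s β p (γ j) * s b (e (e' j))) * s (γ l) (e p) := by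
    rw [Finset.sum_mul, Finset.mul_sum, Finset.sum_mul, ← Finset.sum_sub_distrib]
    exact Finset.sum_congr rfl fun j _ => by ring
  rw [e1, h1, h2]
  ring

theorem sum_YY' [Fintype (Jc e')] {b : P} (hb : Lam η κ s e β e' γ b = 0) (l : Fin d) :
    ∑ j, s b (e (e' j)) * YY η κ s e β e' γ l j = 0 := by
  have e0 : ∀ t p, ∑ j, CC η κ s e β e' γ t p j * s b (e (e' j)) = 0 := fun t p => by
    rw [← Lam_apply, hb]
    rfl
  simp only [YY, Finset.mul_sum]
  rw [Finset.sum_comm]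
  refine Finset.sum_eq_zero fun p _ => ?_
  have h1 : ∑ j, th η κ s β p (γ j) * s b (e (e' j)) = 0 := e0 2 p
  have h2 : ∑ j, s (γ j) (e p) * s b (e (e' j)) = 0 := e0 3 p
  have e1 : ∑ j, s b (e (e' j)) * ((s (γ l) (e p) - s (γ l) (e p) * s (γ l) (e p)) *
      th η κ s β p (γ j) - 2 * (s (γ l) (e p) * th η κ s β p (γ l)) * s (γ j) (e p)) =
      (s (γ l) (e p) - s (γ l) (e p) * s (γ l) (e p)) *
        (∑ j, th η κ s β p (γ j) * s b (e (e' j))) -
      2 * (s (γ l) (e p) * th η κ s β p (γ l)) * (∑ j, s (γ j) (e p) * s b (e (e' j))) := by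
    rw [Finset.mul_sum, Finset.mul_sum, ← Finset.sum_sub_distrib]
    exact Finset.sum_congr rfl fun j _ => by ring
  rw [e1, h1, h2]
  ring

/-- **The abstract lemma.** -/
theorem Alg.main (h : Alg η κ s) (h2 : (2 : F) ≠ 0) {k : ℕ}
    (hk : Fintype.card ι ≤ finrank F (LinearMap.range κ) + k) :
    ∃ V W : Submodule F P, V ≤ W ∧ finrank F P ≤ finrank F W + k ∧
      finrank F W ≤ finrank F V + 4 * k ∧
      ∀ b ∈ V, ∀ c ∈ W, κ c ⬝ᵥ (η * s b) = 0 := by
  classical
  obtain ⟨ρ, e, β, hρ, hp⟩ := exists_piv s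
  obtain ⟨d, e', γ, hd, h'⟩ := exists_piv2 h hp hρ hk
  set L := Lam η κ s e β e' γ with hL
  refine ⟨LinearMap.ker L ⊓ W2 η κ s β, W2 η κ s β, inf_le_right, h.finrank_W2 hp hρ hk, ?_, ?_⟩
  · have a1 := finrank_map_add L (W2 η κ s β)
    have a2 := Submodule.finrank_le ((W2 η κ s β).map L)
    rw [finrank_fintype_fun_eq_card, Fintype.card_prod, Fintype.card_fin] at a2
    have a3 := card_Jc h'
    have a4 : Fintype.card (Jc e') ≤ k := by omega
    omega
  · rintro b ⟨hb, hbW⟩ c hc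
    have hsum : ∀ x ∈ W2 η κ s β, s x = s (∑ j, s x (e (e' j)) • γ j) := by
      intro x hx
      refine s_eq_of_sJ hp ?_
      rw [h'.h2 x hx, map_sum]
      exact Finset.sum_congr rfl fun j _ => by rw [map_smul]
    have e1 : κ c ⬝ᵥ (η * s b) = ∑ j, ∑ l, s b (e (e' j)) * s c (e (e' l)) * al η κ s γ j l := by
      have f1 : κ c ⬝ᵥ (η * s b) = ∑ j, s b (e (e' j)) * (κ c ⬝ᵥ (η * s (γ j))) := by
        conv_lhs => rw [hsum b hbW, map_sum, mul_sum_left, dotProduct_sum]
        refine Finset.sum_congr rfl fun j _ => ?_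
        rw [map_smul, mul_smul_fun, dotProduct_smul, smul_eq_mul]
      rw [f1]
      refine Finset.sum_congr rfl fun j _ => ?_
      have f2 : κ c ⬝ᵥ (η * s (γ j)) = -(κ (γ j) ⬝ᵥ (η * s c)) :=
        eq_neg_of_add_eq_zero_left (h.h1 (γ j) c)
      have f3 : κ (γ j) ⬝ᵥ (η * s c) = ∑ l, s c (e (e' l)) * (κ (γ j) ⬝ᵥ (η * s (γ l))) := by
        conv_lhs => rw [hsum c hc, map_sum, mul_sum_left, dotProduct_sum]
        refine Finset.sum_congr rfl fun l _ => ?_
        rw [map_smul, mul_smul_fun, dotProduct_smul, smul_eq_mul]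
      rw [f2, f3, mul_neg, Finset.mul_sum, ← Finset.sum_neg_distrib]
      refine Finset.sum_congr rfl fun l _ => ?_
      have f4 := al_skew (γ := γ) h j l
      rw [al, al] at f4
      rw [al, f4]
      ring
    have e2 : 2 * (κ c ⬝ᵥ (η * s b)) = ∑ l, s c (e (e' l)) *
        (∑ j, s b (e (e' j)) * YY η κ s e β e' γ j l) -
        ∑ l, s c (e (e' l)) * (∑ j, s b (e (e' j)) * YY η κ s e β e' γ l j) := by
      rw [e1, Finset.sum_comm, Finset.mul_sum, ← Finset.sum_sub_distrib]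
      refine Finset.sum_congr rfl fun l _ => ?_
      rw [Finset.mul_sum, Finset.mul_sum, Finset.mul_sum, ← Finset.sum_sub_distrib]
      refine Finset.sum_congr rfl fun j _ => ?_
      linear_combination (s b (e (e' j)) * s c (e (e' l))) * two_al h hp h' j l
    simp only [sum_YY hb, sum_YY' hb, mul_zero, Finset.sum_const_zero, sub_zero] at e2
    exact (mul_eq_zero.1 e2).resolve_left h2

end

end Pool.Agent.W981.Aff
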