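import Pool.Agent.W981.Aff.Pivots
import Pool.Agent.W981.Hyp.Core2

/-!
# Subspaces which are closed under derivations
-/

set_option autoImplicit false
set_option linter.unusedSectionVars false

namespace Pool.Agent.W981.Aff

open Pool.Agent.W981.Hyp Module Matrix MvPolynomial

section wronskian

variable {σ k : Type*} [Field k] [Finite σ]

theorem const_mul_of_wronskian [CharZero k] (f g : MvPolynomial σ k) (hg : g ≠ 0)
    (h : ∀ j, g * pderiv j f = f * pderiv j g) : ∃ c : k, f = C c * g := by
  have := Fintype.ofFinite σ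
  let _ : LinearOrder σ := LinearOrder.lift' (Fintype.equivFin σ) (Fintype.equivFin σ).injective
  set m : MonomialOrder σ := MonomialOrder.lex with hm
  have key : ∀ f' : MvPolynomial σ k, f' ≠ 0 → (∀ j, g * pderiv j f' = f' * pderiv j g) →
      m.degree f' = m.degree g := by
    intro f' hf' h'
    ext j
    have h1 : g * (X j * pderiv j f') = f' * (X j * pderiv j g) := by
      rw [mul_left_comm, h' j, mul_left_comm]
    have h2 := congrArg (coeff (m.degree g + m.degree f')) h1
    rw [m.coeff_mul_of_add_of_degree_le le_rfl (W925.Sym.degree_le_of_support m fun α hα => by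
      rw [W925.Sym.coeff_X_mul_pderiv, hα, mul_zero]), add_comm (m.degree g),
      m.coeff_mul_of_add_of_degree_le le_rfl (W925.Sym.degree_le_of_support m fun α hα => by
      rw [W925.Sym.coeff_X_mul_pderiv, hα, mul_zero]), W925.Sym.coeff_X_mul_pderiv,
      W925.Sym.coeff_X_mul_pderiv] at h2
    have h3 : coeff (m.degree g) g ≠ 0 := m.leadingCoeff_ne_zero_iff.2 hg
    have h4 : coeff (m.degree f') f' ≠ 0 := m.leadingCoeff_ne_zero_iff.2 hf'
    have h5 : (coeff (m.degree g) g * coeff (m.degree f') f') * ((m.degree f' j : k) - m.degree g j)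
        = 0 := by linear_combination h2
    rcases mul_eq_zero.1 h5 with h6 | h6
    · exact absurd h6 (mul_ne_zero h3 h4)
    · exact_mod_cast sub_eq_zero.1 h6
  by_cases hf : f = 0
  · exact ⟨0, by rw [hf]; simp⟩
  have h3 : coeff (m.degree g) g ≠ 0 := m.leadingCoeff_ne_zero_iff.2 hg
  refine ⟨coeff (m.degree f) f / coeff (m.degree g) g, ?_⟩
  by_contra hne
  set c := coeff (m.degree f) f / coeff (m.degree g) g with hc
  have hF : f - C c * g ≠ 0 := sub_ne_zero.2 hne
  have h1 := key (f - C c * g) hF (fun j => by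
    rw [map_sub, pderiv_C_mul]
    have := h j
    linear_combination this)
  have h2 : coeff (m.degree (f - C c * g)) (f - C c * g) ≠ 0 := m.leadingCoeff_ne_zero_iff.2 hF
  apply h2
  rw [h1, coeff_sub, coeff_C_mul, hc, ← key f hf h]
  have h3' : coeff (m.degree f) g ≠ 0 := by rw [key f hf h]; exact h3
  rw [div_mul_cancel₀ _ h3', sub_self]

end wronskian

section closed

variable {σ K : Type*} [Field K] [Fintype σ]

/-- constants -/
theorem const_of_dF [CharZero K] (f : FF σ K) (h : ∀ k, dF k f = 0) :
    ∃ c : K, f = algebraMap K (FF σ K) c := by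
  classical
  obtain ⟨p, q, hq, rfl⟩ := IsFractionRing.div_surjective (A := MvPolynomial σ K) f
  have hq1 : q ≠ 0 := nonZeroDivisors.ne_zero hq
  have hq0 : algebraMap (MvPolynomial σ K) (FF σ K) q ≠ 0 := by
    rw [Ne, FaithfulSMul.algebraMap_eq_zero_iff]
    exact hq1
  obtain ⟨c, hc⟩ := const_mul_of_wronskian p q hq1 (fun j => by
    apply IsFractionRing.injective (MvPolynomial σ K) (FF σ K)
    have h1 : algebraMap (MvPolynomial σ K) (FF σ K) p =
      algebraMap (MvPolynomial σ K) (FF σ K) q *
      (algebraMap (MvPolynomial σ K) (FF σ K) p /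
        algebraMap (MvPolynomial σ K) (FF σ K) q) := by
      rw [mul_div_cancel₀ _ hq0]
    have h2 := congrArg (dF j) h1
    rw [Derivation.leibniz, h j, smul_zero, zero_add, smul_eq_mul, dF_algebraMap,
      dF_algebraMap] at h2
    rw [map_mul, map_mul, h2]
    field_simp)
  refine ⟨c, ?_⟩
  rw [hc, map_mul, mul_div_cancel_right₀ _ hq0, algebraMap_C]

/-- A subspace which is closed under derivations is defined over the constants. -/
theorem exists_ext_of_closed [CharZero K] {n : Type*} [Fintype n]
    (N : Submodule (FF σ K) (n → FF σ K)) (h : ∀ k, ∀ x ∈ N, dv (dF k) x ∈ N) :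
    ∃ N₀ : Submodule K (n → K), N = ext (FF σ K) N₀ := by
  classical
  obtain ⟨d, e, b, -, h1, h2, h3⟩ := exists_pivots N
  have hb : ∀ p a, ∃ c : K, b p a = algebraMap K (FF σ K) c := by
    intro p a
    refine const_of_dF _ fun k => ?_
    have h4 := h3 _ (h k _ (h1 p))
    have h5 : ∀ q, dv (dF k) (b p) (e q) = 0 := by
      intro q
      change dF k (b p (e q)) = 0
      rw [h2]
      split_ifs
      · exact Derivation.map_one_eq_zero _
      · exact map_zero _
    have h6 : dv (dF k) (b p) = 0 := by
      rw [h4]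
      exact Finset.sum_eq_zero fun q _ => by rw [h5, zero_smul]
    exact congrFun h6 a
  choose y hy using hb
  have hby : ∀ p, b p = up (FF σ K) (y p) := fun p => funext fun a => hy p a
  refine ⟨Submodule.span K (Set.range y), le_antisymm ?_ ?_⟩
  · intro x hx
    rw [h3 x hx]
    refine Submodule.sum_mem _ fun p _ => Submodule.smul_mem _ _ ?_
    rw [hby]
    exact up_mem (Submodule.subset_span ⟨p, rfl⟩)
  · rw [ext_le_iff]
    intro w hw
    induction hw using Submodule.span_induction with
    | mem x hx =>
      obtain ⟨p, rfl⟩ := hx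
      rw [← hby]
      exact h1 p
    | zero => rw [up_zero]; exact Submodule.zero_mem _
    | add x y _ _ hx hy => rw [up_add]; exact Submodule.add_mem _ hx hy
    | smul c x _ hx => rw [up_smul]; exact Submodule.smul_mem _ _ hx

theorem ext_hull_le [CharZero K] {n : Type*} [Fintype n]
    (N Z : Submodule (FF σ K) (n → FF σ K)) (h : ∀ k, ∀ x ∈ N, dv (dF k) x ∈ N) (hZ : Z ≤ N) :
    ext (FF σ K) (hull K Z) ≤ N := by
  obtain ⟨N₀, rfl⟩ := exists_ext_of_closed N h
  exact ext_mono (hull_le hZ)

end closed

end Pool.Agent.W981.Aff
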