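import Pool.Agent.W981.Aff.Ident
import Pool.Agent.W981.Aff.Alg2
import Pool.Agent.W981.Blk.Dims

/-!
# The dimension counts for affine families
-/

set_option autoImplicit false
set_option linter.unusedSectionVars false

namespace Pool.Agent.W981.Aff

open Pool.Agent.W981.Hyp Pool.Agent.W981.Blk Module Matrix MvPolynomial

section main

variable {σ ι K : Type*} [Field K] [DecidableEq σ] [Fintype σ] [Fintype ι]
  {n m : Type*} [Fintype n] [Fintype m]

/-- the values `w · u_i` -/
noncomputable def om (u : ι → m → K) (w : m → FF σ K) (i : ι) : FF σ K := w ⬝ᵥ up (FF σ K) (u i)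

/-- the values `v_i · z` -/
noncomputable def zt (v : ι → n → K) (z : n → FF σ K) (i : ι) : FF σ K := up (FF σ K) (v i) ⬝ᵥ z

theorem nu_apply (u : ι → m → K) (v : ι → n → K) (w : m → FF σ K) (x : n → FF σ K) (i : ι) :
    nu u v w x i = om u w i * zt v x i := rfl

/-- the map `φ` -/
noncomputable def phi (u : ι → m → K) (v : ι → n → K) (w : m → FF σ K) (z : n → FF σ K) :
    (σ → FF σ K) →ₗ[FF σ K] (ι → FF σ K) where
  toFun c := fun i => zt v z i * om u (zb w c) i + om u w i * zt v (zb z c) i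
  map_add' x y := by
    funext i
    simp only [om, zt, map_add, add_dotProduct, dotProduct_add, Pi.add_apply]
    ring
  map_smul' c x := by
    funext i
    simp only [om, zt, map_smul, smul_dotProduct, dotProduct_smul, smul_eq_mul, Pi.smul_apply,
      RingHom.id_apply]
    ring

/-- the map `s` -/
noncomputable def sf (u : ι → m → K) (v : ι → n → K) (w : m → FF σ K) (z : n → FF σ K) :
    (σ → FF σ K) →ₗ[FF σ K] (ι → FF σ K) where
  toFun c := fun i => om u w i * (om u w i * zt v z i)⁻¹ * zt v (zb z c) i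
  map_add' x y := by
    funext i
    simp only [zt, map_add, dotProduct_add, Pi.add_apply]
    ring
  map_smul' c x := by
    funext i
    simp only [zt, map_smul, dotProduct_smul, smul_eq_mul, Pi.smul_apply, RingHom.id_apply]
    ring

theorem sf_apply (u : ι → m → K) (v : ι → n → K) (w : m → FF σ K) (z : n → FF σ K)
    (c : σ → FF σ K) (i : ι) : sf u v w z c i =
      om u w i * (om u w i * zt v z i)⁻¹ * zt v (zb z c) i := rfl

/-- the weights -/
noncomputable def et (u : ι → m → K) (v : ι → n → K) (w : m → FF σ K) (z : n → FF σ K) :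
    ι → FF σ K := fun i => om u w i * zt v z i

namespace DatA

variable {B : Matrix m n K} {A : σ → Matrix m n K} {u : ι → m → K} {v : ι → n → K}
    {a : σ → ι → K} {X : Submodule K (n → K)} {w : m → FF σ K} {z : n → FF σ K}

theorem zt_zb (h : DatA B A u v a X w z) {i : ι} (hi : zt v z i = 0) (b : σ → FF σ K) :
    zt v (zb z b) i = 0 :=
  dot_of_mem (zb_mem h.hz b) (h.hzv i hi)

theorem et_mul_sf (h : DatA B A u v a X w z) (b : σ → FF σ K) :
    et u v w z * sf u v w z b = nu u v w (zb z b) := by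
  funext i
  rw [Pi.mul_apply, nu_apply, sf_apply]
  change om u w i * zt v z i * _ = _
  by_cases h1 : om u w i = 0
  · rw [h1]; ring
  by_cases h2 : zt v z i = 0
  · rw [h.zt_zb h2]; ring
  have h3 : om u w i * zt v z i ≠ 0 := mul_ne_zero h1 h2
  field_simp

theorem triple_term (h : DatA B A u v a X w z) {b c : σ → FF σ K} (hc : phi u v w z c = 0)
    (i : ι) : om u (zb w c) i * zt v (zb z b) i =
      -(et u v w z i * (sf u v w z b i * sf u v w z c i)) := by
  rw [sf_apply, sf_apply]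
  change _ = -(om u w i * zt v z i * _)
  by_cases h2 : zt v z i = 0
  · rw [h.zt_zb h2]; ring
  have hc' : zt v z i * om u (zb w c) i + om u w i * zt v (zb z c) i = 0 := congrFun hc i
  by_cases h1 : om u w i = 0
  · rw [h1, zero_mul, add_zero] at hc'
    rw [(mul_eq_zero.1 hc').resolve_left h2, h1]
    ring
  have h3 : om u (zb w c) i = -(om u w i * zt v (zb z c) i) / zt v z i := by
    field_simp
    linear_combination hc'
  rw [h3]
  field_simp

theorem q3_eq (h : DatA B A u v a X w z) {b c d : σ → FF σ K} (hc : phi u v w z c = 0) :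
    q3 u v a w z c b d =
      -(kap a b ⬝ᵥ (et u v w z * (sf u v w z d * sf u v w z c))) := by
  rw [q3, dot_BB, dotProduct, dotProduct, ← Finset.sum_neg_distrib]
  refine Finset.sum_congr rfl fun i _ => ?_
  rw [nu_apply, h.triple_term hc, Pi.mul_apply, Pi.mul_apply]
  ring

theorem alg (h : DatA B A u v a X w z) (h2 : (2 : FF σ K) ≠ 0) :
    Alg (et u v w z) (kap a ∘ₗ (LinearMap.ker (phi u v w z)).subtype)
      (sf u v w z ∘ₗ (LinearMap.ker (phi u v w z)).subtype) where
  hη i hi b := by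
    change sf u v w z b i = 0
    have hi' : om u w i * zt v z i = 0 := hi
    rw [sf_apply, hi', _root_.inv_zero, mul_zero, zero_mul]
  h1 b c := by
    change kap a c ⬝ᵥ (et u v w z * sf u v w z b) + kap a b ⬝ᵥ (et u v w z * sf u v w z c) = 0
    rw [h.et_mul_sf, h.et_mul_sf, ← dot_BB, ← dot_BB]
    exact h.i2 b c
  h3 x y t := by
    change kap a x ⬝ᵥ (et u v w z * (sf u v w z y * sf u v w z t)) +
      kap a y ⬝ᵥ (et u v w z * (sf u v w z x * sf u v w z t)) +
      kap a t ⬝ᵥ (et u v w z * (sf u v w z x * sf u v w z y)) = 0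
    have e := h.i3 x y t
    have hx : phi u v w z x = 0 := x.2
    have hy : phi u v w z y = 0 := y.2
    have ht : phi u v w z t = 0 := t.2
    rw [s3, h.q3_eq ht, h.q3_eq ht, h.q3_eq hy, h.q3_eq hy, h.q3_eq hx, h.q3_eq hx,
      mul_comm (sf u v w z ↑t) (sf u v w z ↑x), mul_comm (sf u v w z ↑t) (sf u v w z ↑y),
      mul_comm (sf u v w z ↑y) (sf u v w z ↑x)] at e
    have e' : 2 * (kap a x ⬝ᵥ (et u v w z * (sf u v w z y * sf u v w z t)) +
      kap a y ⬝ᵥ (et u v w z * (sf u v w z x * sf u v w z t)) +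
      kap a t ⬝ᵥ (et u v w z * (sf u v w z x * sf u v w z y))) = 0 := by
      linear_combination -e
    exact (mul_eq_zero.1 e').resolve_left h2

theorem finrank_phi (h : DatA B A u v a X w z) {c : ℕ}
    (hc : Fintype.card ι ≤ finrank K (WW a) + c) :
    finrank (FF σ K) (σ → FF σ K) ≤ finrank (FF σ K) (LinearMap.ker (phi u v w z)) + c := by
  classical
  have h1 := LinearMap.finrank_range_add_finrank_ker (phi u v w z)
  have h2 : LinearMap.range (phi u v w z) ≤ perp (LinearMap.range (kap a)) := by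
    rintro _ ⟨c, rfl⟩ _ ⟨b, rfl⟩
    have e1 := h.i1 b c
    have e2 := h.i2 b c
    rw [dot_BB, dot_BB] at e1 e2
    have e3 : phi u v w z c ⬝ᵥ kap a b = kap a b ⬝ᵥ nu u v (zb w c) z +
        kap a b ⬝ᵥ nu u v w (zb z c) := by
      rw [dotProduct_comm, ← dotProduct_add]
      congr 1
      funext i
      change zt v z i * om u (zb w c) i + om u w i * zt v (zb z c) i =
        om u (zb w c) i * zt v z i + om u w i * zt v (zb z c) i
      ring
    rw [e3, ← e1, e2]
  have h3 := Submodule.finrank_mono h2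
  have h4 := finrank_perp (LinearMap.range (kap (σ := σ) a))
  have h5 := Submodule.finrank_mono (ext_le_range (σ := σ) a)
  rw [finrank_ext] at h5
  omega

/-- The two subspaces of parameters. -/
theorem exists_params (h : DatA B A u v a X w z) (h2 : (2 : FF σ K) ≠ 0) {c : ℕ}
    (hc : Fintype.card ι ≤ finrank K (WW a) + c) :
    ∃ V W : Submodule (FF σ K) (σ → FF σ K),
      finrank (FF σ K) (σ → FF σ K) ≤ finrank (FF σ K) W + 3 * c ∧
      finrank (FF σ K) (σ → FF σ K) ≤ finrank (FF σ K) V + 11 * c ∧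
      ∀ b ∈ V, ∀ d ∈ W, w ⬝ᵥ BB u v (kap a d) (zb z b) = 0 := by
  have e1 := h.finrank_phi hc
  have e2 := finrank_map_codim (kap (σ := σ) a) (S₁ := LinearMap.ker (phi u v w z)) (S := ⊤) le_top
  have e3 : LinearMap.range (kap a ∘ₗ (LinearMap.ker (phi u v w z)).subtype) =
      (LinearMap.ker (phi u v w z)).map (kap a) := by
    rw [LinearMap.range_comp, Submodule.range_subtype]
  have e4 := Submodule.finrank_mono (ext_le_range (σ := σ) a)
  rw [finrank_ext] at e4
  rw [Submodule.map_top, finrank_top] at e2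
  obtain ⟨V, W, -, f1, f2, f3⟩ := (h.alg h2).main h2 (k := 2 * c) (by
    rw [e3]
    omega)
  have g1 : finrank (FF σ K) (V.map (LinearMap.ker (phi u v w z)).subtype) =
      finrank (FF σ K) V := Submodule.finrank_map_subtype_eq _ _
  have g2 : finrank (FF σ K) (W.map (LinearMap.ker (phi u v w z)).subtype) =
      finrank (FF σ K) W := Submodule.finrank_map_subtype_eq _ _
  refine ⟨V.map (LinearMap.ker (phi u v w z)).subtype,
    W.map (LinearMap.ker (phi u v w z)).subtype, ?_, ?_, ?_⟩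
  · rw [g2]
    omega
  · rw [g1]
    omega
  · rintro _ ⟨b, hb, rfl⟩ _ ⟨d, hd, rfl⟩
    have := f3 b hb d hd
    change kap a d ⬝ᵥ (et u v w z * sf u v w z b) = 0 at this
    rw [h.et_mul_sf, ← dot_BB] at this
    exact this

theorem im_U2 (h : DatA B A u v a X w z) : im A X ≤ E2 X u v := by
  rw [im_le]
  intro k x hx
  rw [sum_mulVec_eq (h.hA k)]
  refine Submodule.sum_mem _ fun i _ => ?_
  by_cases hv : v i ⬝ᵥ x = 0
  · rw [hv, mul_zero, zero_smul]
    exact Submodule.zero_mem _
  · exact Submodule.smul_mem _ _ (Submodule.subset_span ⟨i, rfl, x, hx, hv⟩)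

theorem im_U1 (h : DatA B A u v a X w z) : im A (U1 X u v w) ≤ E1 X u v w := by
  rw [im_le]
  rintro k x ⟨hx, hx'⟩
  rw [sum_mulVec_eq (h.hA k)]
  refine Submodule.sum_mem _ fun i _ => ?_
  by_cases hi : w ⬝ᵥ up (FF σ K) (u i) = 0
  · by_cases hv : v i ⬝ᵥ x = 0
    · rw [hv, mul_zero, zero_smul]
      exact Submodule.zero_mem _
    · exact Submodule.smul_mem _ _ (Submodule.subset_span ⟨i, rfl, hi, x, hx, hv⟩)
  · rw [hx' i hi, mul_zero, zero_smul]
    exact Submodule.zero_mem _

theorem ext_E1_le (h : DatA B A u v a X w z) : ext (FF σ K) (E1 X u v w) ≤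
    (ext (FF σ K) X).map (gaf B A).mulVecLin := by
  rw [ext_le_iff]
  intro y hy
  rw [E1] at hy
  induction hy using Submodule.span_induction with
  | mem x hx =>
    obtain ⟨i, rfl, hi, -⟩ := hx
    exact h.hwu i hi
  | zero => rw [up_zero]; exact Submodule.zero_mem _
  | add x y _ _ hx hy => rw [up_add]; exact Submodule.add_mem _ hx hy
  | smul c x _ hx => rw [up_smul]; exact Submodule.smul_mem _ _ hx

theorem ext_E2_le (h : DatA B A u v a X w z) : ext (FF σ K) (E2 X u v) ≤
    (⊤ : Submodule (FF σ K) (ι → FF σ K)).map (BBl u v z) := by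
  classical
  rw [ext_le_iff]
  intro y hy
  rw [E2] at hy
  induction hy using Submodule.span_induction with
  | mem x hx =>
    obtain ⟨i, rfl, x, hx, hi⟩ := hx
    have h1 : up (FF σ K) (v i) ⬝ᵥ z ≠ 0 := fun h0 => hi (h.hzv i h0 x hx)
    refine ⟨Pi.single i (up (FF σ K) (v i) ⬝ᵥ z)⁻¹, Submodule.mem_top, ?_⟩
    change BB u v _ z = _
    rw [BB, Finset.sum_eq_single i]
    · rw [Pi.single_eq_same, inv_mul_cancel₀ h1, one_smul]
    · intro j _ hj
      rw [Pi.single_eq_of_ne hj, zero_mul, zero_smul]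
    · intro hi
      exact absurd (Finset.mem_univ _) hi
  | zero => rw [up_zero]; exact Submodule.zero_mem _
  | add x y _ _ hx hy => rw [up_add]; exact Submodule.add_mem _ hx hy
  | smul c x _ hx => rw [up_smul]; exact Submodule.smul_mem _ _ hx

theorem map_le_E2 [CharZero K] (h : DatA B A u v a X w z) :
    (ext (FF σ K) X).map (gaf B A).mulVecLin ≤ ext (FF σ K) (E2 X u v) := by
  have h1 : ext (FF σ K) X ≤ ext (FF σ K) X ⊓
      (ext (FF σ K) (E2 X u v)).comap (gaf B A).mulVecLin := by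
    nth_rewrite 1 [h.hX]
    refine ext_hull_le _ _ ?_ ?_
    · rintro k x ⟨hx1, hx2⟩
      refine Submodule.mem_inf.2 ⟨dv_mem _ hx1, ?_⟩
      have hx2' : gaf B A *ᵥ x ∈ ext (FF σ K) (E2 X u v) := hx2
      have e1 := dv_gaf (B := B) (A := A) k x
      have e2 : gaf B A *ᵥ dv (dF k) x = dv (dF k) (gaf B A *ᵥ x) -
          (A k).map (algebraMap K (FF σ K)) *ᵥ x := by
        rw [e1, add_sub_cancel_right]
      rw [Submodule.mem_comap, mulVecLin_apply, e2]
      exact Submodule.sub_mem _ (dv_mem _ hx2') (mulVec_mem_ext (im_le.1 h.im_U2 k) hx1)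
    · refine le_inf h.ker_le ?_
      intro x hx
      have hx' : gaf B A *ᵥ x = 0 := hx
      rw [Submodule.mem_comap, mulVecLin_apply, hx']
      exact Submodule.zero_mem _
  rintro _ ⟨x, hx, rfl⟩
  exact (h1 hx).2

theorem dim_E2 (h : DatA B A u v a X w z) {c : ℕ} (hc : Fintype.card ι ≤ finrank K (WW a) + c) :
    finrank K (E2 X u v) ≤
      finrank (FF σ K) ((ext (FF σ K) X).map (gaf B A).mulVecLin) + c := by
  have h1 := Submodule.finrank_mono h.ext_E2_le
  rw [finrank_ext] at h1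
  have h2 := finrank_map_codim (BBl u v z) (S₁ := ext (FF σ K) (WW a)) (S := ⊤) le_top
  rw [finrank_ext, finrank_top, finrank_fintype_fun_eq_card] at h2
  have h3 : (ext (FF σ K) (WW a)).map (BBl u v z) ≤
      (ext (FF σ K) X).map (gaf B A).mulVecLin := by
    rintro _ ⟨y, hy, rfl⟩
    obtain ⟨b, rfl⟩ := ext_le_range a hy
    refine ⟨-zb z b, Submodule.neg_mem _ (zb_mem h.hz b), ?_⟩
    change gaf B A *ᵥ (-zb z b) = BB u v (kap a b) z
    rw [mulVec_neg, h.gaf_zb, neg_neg]
  have h4 := Submodule.finrank_mono h3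
  omega

/-- the rank of the pairing -/
theorem dim_nu [CharZero K] (h : DatA B A u v a X w z) (h2 : (2 : FF σ K) ≠ 0) {c : ℕ}
    (hc : Fintype.card ι ≤ finrank K (WW a) + c) :
    finrank (FF σ K) ((ext (FF σ K) X).map (nu u v w)) ≤ 16 * c := by
  classical
  obtain ⟨V, W, a1, a2, a3⟩ := h.exists_params h2 hc
  have b0 := Submodule.finrank_mono (ext_le_range (σ := σ) a)
  rw [finrank_ext] at b0
  have b1 := finrank_map_codim (kap (σ := σ) a) (S₁ := V) (S := ⊤) le_top
  have b2 := finrank_map_codim (kap (σ := σ) a) (S₁ := W) (S := ⊤) le_top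
  rw [Submodule.map_top, finrank_top] at b1 b2
  set T := (V.map (kap a)).map (BBl u v z) with hT
  have b3 := finrank_map_codim (BBl u v z) (S₁ := V.map (kap a)) (S := ⊤) le_top
  rw [← hT, finrank_top, finrank_fintype_fun_eq_card] at b3
  set XV := T.comap (gaf B A).mulVecLin ⊓ ext (FF σ K) X with hXV
  have c1 := finrank_map_sup (gaf B A).mulVecLin (ext (FF σ K) X) T
  rw [← hXV] at c1
  have c2 : (ext (FF σ K) X).map (gaf B A).mulVecLin ⊔ T ≤
      (⊤ : Submodule (FF σ K) (ι → FF σ K)).map (BBl u v z) :=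
    sup_le (h.map_le_E2.trans h.ext_E2_le) (Submodule.map_mono le_top)
  have c3 := Submodule.finrank_mono c2
  have d1 : finrank (FF σ K) (W.map (kap a)) + finrank (FF σ K) (XV.map (nu u v w)) ≤
      Fintype.card ι := by
    refine finrank_perp_le _ _ ?_
    rintro _ ⟨d, hd, rfl⟩ _ ⟨x, hx, rfl⟩
    obtain ⟨_, ⟨b, hb, rfl⟩, hbx⟩ := hx.1
    have hbx' : BB u v (kap a b) z = gaf B A *ᵥ x := hbx
    rw [← dot_BB]
    have e1 := h.i0 (x := x + zb z b) (by
      rw [mulVec_add, h.gaf_zb, hbx', add_neg_cancel]) d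
    rw [BB_add_right, dotProduct_add, a3 b hb d hd, add_zero] at e1
    exact e1
  have d2 := finrank_map_codim (nu u v w) (S₁ := XV) (S := ext (FF σ K) X) inf_le_right
  rw [finrank_ext] at c1 d2
  omega

theorem dim_U [CharZero K] (h : DatA B A u v a X w z) (h2 : (2 : FF σ K) ≠ 0) {c : ℕ}
    (hc : Fintype.card ι ≤ finrank K (WW a) + c) :
    finrank K X ≤ finrank K (U1 X u v w) + 16 * c := by
  have e1 := h.dim_nu h2 hc
  have e2 := finrank_map_add (nu u v w) (ext (FF σ K) X)
  have e3 := Submodule.finrank_mono (ker_nu_le X u v w)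
  rw [finrank_ext] at e2 e3
  omega

end DatA

/-- the subspace `B U + ∑ A_k U` -/
def imB (B : Matrix m n K) (A : σ → Matrix m n K) (U : Submodule K (n → K)) :
    Submodule K (m → K) := U.map B.mulVecLin ⊔ im A U

theorem imB_mem {B : Matrix m n K} {A : σ → Matrix m n K} {U : Submodule K (n → K)}
    {x : n → FF σ K} (hx : x ∈ ext (FF σ K) U) :
    gaf B A *ᵥ x ∈ ext (FF σ K) (imB B A U) := by
  rw [gaf_mulVec]
  refine Submodule.add_mem _ ?_ (gen_mem le_sup_right hx)
  refine mulVec_mem_ext (fun w hw => ?_) hx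
  exact Submodule.mem_sup_left (Submodule.mem_map_of_mem (f := B.mulVecLin) hw)

theorem map_gaf_le (B : Matrix m n K) (A : σ → Matrix m n K) (U : Submodule K (n → K)) :
    (ext (FF σ K) U).map (gaf B A).mulVecLin ≤ ext (FF σ K) (imB B A U) := by
  rintro _ ⟨x, hx, rfl⟩
  exact imB_mem hx

theorem up_B (B : Matrix m n K) (A : σ → Matrix m n K) (x : n → K) :
    up (FF σ K) (B *ᵥ x) = gaf B A *ᵥ up (FF σ K) x - gen A *ᵥ up (FF σ K) x := by
  rw [gaf_mulVec, add_sub_cancel_right, up_mulVec]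

namespace DatA

variable {B : Matrix m n K} {A : σ → Matrix m n K} {u : ι → m → K} {v : ι → n → K}
    {a : σ → ι → K} {X : Submodule K (n → K)} {w : m → FF σ K} {z : n → FF σ K}

theorem imB_X [CharZero K] (h : DatA B A u v a X w z) : imB B A X ≤ E2 X u v := by
  refine sup_le ?_ h.im_U2
  rintro _ ⟨x, hx, rfl⟩
  rw [mulVecLin_apply, ← up_mem_iff (F := FF σ K), up_B B A]
  exact Submodule.sub_mem _ (h.map_le_E2 ⟨_, up_mem hx, rfl⟩) (gen_mem h.im_U2 (up_mem hx))

theorem ext_imB_le (h : DatA B A u v a X w z) : ext (FF σ K) (imB B A (U1 X u v w)) ≤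
    (ext (FF σ K) X).map (gaf B A).mulVecLin := by
  rw [imB, ext_sup]
  refine sup_le ?_ ((ext_mono h.im_U1).trans h.ext_E1_le)
  rw [ext_le_iff]
  rintro _ ⟨x, hx, rfl⟩
  rw [mulVecLin_apply, up_B B A]
  exact Submodule.sub_mem _ ⟨_, up_mem hx.1, rfl⟩ (h.ext_E1_le (gen_mem h.im_U1 (up_mem hx)))

theorem dim_E [CharZero K] (h : DatA B A u v a X w z) (h2 : (2 : FF σ K) ≠ 0) {c : ℕ}
    (hc : Fintype.card ι ≤ finrank K (WW a) + c) :
    finrank K (imB B A X) ≤ finrank K (imB B A (U1 X u v w)) + 17 * c := by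
  have e0 := Submodule.finrank_mono h.imB_X
  have e1 := h.dim_E2 hc
  have e2 := h.dim_U h2 hc
  have hle : U1 X u v w ≤ X := fun _ hx => hx.1
  have e3 := finrank_map_codim (gaf B A).mulVecLin (ext_mono (F := FF σ K) hle)
  rw [finrank_ext, finrank_ext] at e3
  have e5 := Submodule.finrank_mono (map_gaf_le B A (U1 X u v w))
  rw [finrank_ext] at e5
  omega

theorem cert (h : DatA B A u v a X w z) : (gaf B A).rank + finrank K X = Fintype.card n +
    finrank (FF σ K) ((ext (FF σ K) X).map (gaf B A).mulVecLin ⊔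
      ext (FF σ K) (imB B A (U1 X u v w)) : Submodule (FF σ K) (m → FF σ K)) := by
  rw [sup_eq_left.2 h.ext_imB_le]
  have e1 := finrank_map_add (gaf B A).mulVecLin (ext (FF σ K) X)
  rw [inf_eq_left.2 h.ker_le, finrank_ext] at e1
  have e2 := LinearMap.finrank_range_add_finrank_ker (gaf B A).mulVecLin
  rw [finrank_fintype_fun_eq_card] at e2
  change (gaf B A).rank + _ = _ at e2
  omega

end DatA

/-- the good points exist -/
theorem exists_datA [Infinite (FF σ K)] (B : Matrix m n K) (A : σ → Matrix m n K)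
    (u : ι → m → K) (v : ι → n → K)
    (a : σ → ι → K) (hA : ∀ k, A k = ∑ i, a k i • vecMulVec (u i) (v i)) :
    ∃ X w z, DatA B A u v a X w z := by
  classical
  set Z := LinearMap.ker (gaf B A).mulVecLin with hZ
  set X := hull K Z with hX
  obtain ⟨z, hz, hzv⟩ := Module.Dual.exists_forall_mem_ne_zero_of_forall_exists Z
    (fun i : {i // ¬ ∀ x ∈ X, v i ⬝ᵥ x = 0} =>
      (⟨⟨fun y => up (FF σ K) (v i.1) ⬝ᵥ y, fun a b => dotProduct_add _ _ _⟩,
        fun c a => dotProduct_smul _ _ _⟩ : (n → FF σ K) →ₗ[FF σ K] FF σ K)) (by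
      rintro ⟨i, hi⟩
      by_contra hcon
      push Not at hcon
      exact hi fun x hx => hx (v i) fun z hz => hcon z hz)
  set Q : Submodule (FF σ K) (m → FF σ K) := (ext (FF σ K) X).map (gaf B A).mulVecLin with hQ
  obtain ⟨w, hw, hwu⟩ := Module.Dual.exists_forall_mem_ne_zero_of_forall_exists (perp Q)
    (fun i : {i // up (FF σ K) (u i) ∉ Q} =>
      (⟨⟨fun y => y ⬝ᵥ up (FF σ K) (u i.1), fun a b => add_dotProduct _ _ _⟩,
        fun c a => smul_dotProduct _ _ _⟩ : (m → FF σ K) →ₗ[FF σ K] FF σ K)) (by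
      rintro ⟨i, hi⟩
      by_contra hcon
      push Not at hcon
      exact hi (mem_iff_dot.2 fun ψ hψ => hcon ψ hψ))
  refine ⟨X, w, z, hA, fun y hy => hw _ ⟨y, hy, rfl⟩, rfl, hz, fun i hi => ?_,
    fun i hi => ?_⟩
  · by_contra h0
    exact hzv ⟨i, h0⟩ hi
  · by_contra h0
    exact hwu ⟨i, h0⟩ hi

end main

end Pool.Agent.W981.Aff
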