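import Pool.Agent.W981.Aff.Const
import Pool.Agent.W981.Blk.Second

/-!
# The identities for affine families
-/

set_option autoImplicit false
set_option linter.unusedSectionVars false

namespace Pool.Agent.W981.Aff

open Pool.Agent.W981.Hyp Pool.Agent.W981.Blk Module Matrix MvPolynomial

section affine

variable {σ K : Type*} [Field K] [DecidableEq σ] [Fintype σ] {n m : Type*} [Fintype n] [Fintype m]

/-- the generic affine matrix `B + ∑ t_k A_k` -/
noncomputable def gaf (B : Matrix m n K) (A : σ → Matrix m n K) : Matrix m n (FF σ K) :=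
  B.map (algebraMap K (FF σ K)) + gen A

variable {B : Matrix m n K} {A : σ → Matrix m n K}

theorem gaf_mulVec (y : n → FF σ K) : gaf B A *ᵥ y =
    B.map (algebraMap K (FF σ K)) *ᵥ y + gen A *ᵥ y := by
  rw [gaf, add_mulVec]

theorem dv_gaf (k : σ) (y : n → FF σ K) : dv (dF k) (gaf B A *ᵥ y) =
    gaf B A *ᵥ dv (dF k) y + (A k).map (algebraMap K (FF σ K)) *ᵥ y := by
  rw [gaf_mulVec, dv_add, dv_const_mulVec, dv_gen_single, gaf_mulVec, add_assoc]

theorem gaf_dv {z : n → FF σ K} (hz0 : gaf B A *ᵥ z = 0) (k : σ) :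
    gaf B A *ᵥ dv (dF k) z = -((A k).map (algebraMap K (FF σ K)) *ᵥ z) := by
  have h := dv_gaf (B := B) (A := A) k z
  rw [hz0, dv_zero] at h
  exact eq_neg_of_add_eq_zero_left h.symm

theorem gaf_dv2 {z : n → FF σ K} (hz0 : gaf B A *ᵥ z = 0) (j k : σ) :
    gaf B A *ᵥ dv (dF j) (dv (dF k) z) =
      -((A k).map (algebraMap K (FF σ K)) *ᵥ dv (dF j) z) -
        (A j).map (algebraMap K (FF σ K)) *ᵥ dv (dF k) z := by
  have h := dv_gaf (B := B) (A := A) j (dv (dF k) z)
  rw [gaf_dv hz0, dv_neg, dv_const_mulVec] at h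
  rw [h, add_sub_cancel_right]

theorem gaf_dv3 {z : n → FF σ K} (hz0 : gaf B A *ᵥ z = 0) (i j k : σ) :
    gaf B A *ᵥ dv (dF i) (dv (dF j) (dv (dF k) z)) =
      -((A k).map (algebraMap K (FF σ K)) *ᵥ dv (dF i) (dv (dF j) z)) -
        (A j).map (algebraMap K (FF σ K)) *ᵥ dv (dF i) (dv (dF k) z) -
          (A i).map (algebraMap K (FF σ K)) *ᵥ dv (dF j) (dv (dF k) z) := by
  have h := dv_gaf (B := B) (A := A) i (dv (dF j) (dv (dF k) z))
  rw [gaf_dv2 hz0, dv_sub, dv_neg, dv_const_mulVec, dv_const_mulVec] at h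
  rw [h, add_sub_cancel_right]

variable {X : Submodule K (n → K)} {w : m → FF σ K}

theorem dual_dv (hw : ∀ y ∈ ext (FF σ K) X, w ⬝ᵥ (gaf B A *ᵥ y) = 0) {x : n → FF σ K}
    (hx : x ∈ ext (FF σ K) X) (k : σ) : dv (dF k) w ⬝ᵥ (gaf B A *ᵥ x) =
      -(w ⬝ᵥ ((A k).map (algebraMap K (FF σ K)) *ᵥ x)) := by
  have h := congrArg (dF k) (hw x hx)
  rw [map_zero, dot_leibniz, dv_gaf, dotProduct_add, hw _ (dv_mem _ hx), zero_add] at h
  exact eq_neg_of_add_eq_zero_left h

theorem id0 (hw : ∀ y ∈ ext (FF σ K) X, w ⬝ᵥ (gaf B A *ᵥ y) = 0) {x : n → FF σ K}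
    (hx : x ∈ ext (FF σ K) X) (hx0 : gaf B A *ᵥ x = 0) (k : σ) :
    w ⬝ᵥ ((A k).map (algebraMap K (FF σ K)) *ᵥ x) = 0 := by
  have h := dual_dv hw hx k
  rw [hx0, dotProduct_zero] at h
  exact neg_eq_zero.1 h.symm

theorem id1 (hw : ∀ y ∈ ext (FF σ K) X, w ⬝ᵥ (gaf B A *ᵥ y) = 0) {z : n → FF σ K}
    (hz : z ∈ ext (FF σ K) X) (hz0 : gaf B A *ᵥ z = 0) (c k : σ) :
    w ⬝ᵥ ((A c).map (algebraMap K (FF σ K)) *ᵥ dv (dF k) z) =
      dv (dF c) w ⬝ᵥ ((A k).map (algebraMap K (FF σ K)) *ᵥ z) := by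
  have h := dual_dv hw (dv_mem (dF k) hz) c
  rw [gaf_dv hz0, dotProduct_neg] at h
  exact (neg_injective h).symm

theorem id2 (hw : ∀ y ∈ ext (FF σ K) X, w ⬝ᵥ (gaf B A *ᵥ y) = 0) {z : n → FF σ K}
    (hz : z ∈ ext (FF σ K) X) (hz0 : gaf B A *ᵥ z = 0) (j k : σ) :
    w ⬝ᵥ ((A k).map (algebraMap K (FF σ K)) *ᵥ dv (dF j) z) +
      w ⬝ᵥ ((A j).map (algebraMap K (FF σ K)) *ᵥ dv (dF k) z) = 0 := by
  have h := hw _ (dv_mem (dF j) (dv_mem (dF k) hz))
  rw [gaf_dv2 hz0, dotProduct_sub, dotProduct_neg] at h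
  linear_combination -h

theorem id3 (hw : ∀ y ∈ ext (FF σ K) X, w ⬝ᵥ (gaf B A *ᵥ y) = 0) {z : n → FF σ K}
    (hz : z ∈ ext (FF σ K) X) (hz0 : gaf B A *ᵥ z = 0) (i j k : σ) :
    dv (dF k) w ⬝ᵥ ((A j).map (algebraMap K (FF σ K)) *ᵥ dv (dF i) z) +
    dv (dF k) w ⬝ᵥ ((A i).map (algebraMap K (FF σ K)) *ᵥ dv (dF j) z) +
    (dv (dF j) w ⬝ᵥ ((A k).map (algebraMap K (FF σ K)) *ᵥ dv (dF i) z) +
    dv (dF j) w ⬝ᵥ ((A i).map (algebraMap K (FF σ K)) *ᵥ dv (dF k) z)) +
    (dv (dF i) w ⬝ᵥ ((A k).map (algebraMap K (FF σ K)) *ᵥ dv (dF j) z) +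
    dv (dF i) w ⬝ᵥ ((A j).map (algebraMap K (FF σ K)) *ᵥ dv (dF k) z)) = 0 := by
  have h := hw _ (dv_mem (dF i) (dv_mem (dF j) (dv_mem (dF k) hz)))
  rw [gaf_dv3 hz0, dotProduct_sub, dotProduct_sub, dotProduct_neg] at h
  have e : ∀ a b c : σ, w ⬝ᵥ ((A c).map (algebraMap K (FF σ K)) *ᵥ dv (dF a) (dv (dF b) z)) =
      dv (dF c) w ⬝ᵥ ((A b).map (algebraMap K (FF σ K)) *ᵥ dv (dF a) z) +
      dv (dF c) w ⬝ᵥ ((A a).map (algebraMap K (FF σ K)) *ᵥ dv (dF b) z) := by
    intro a b c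
    have h1 := dual_dv hw (dv_mem (dF a) (dv_mem (dF b) hz)) c
    rw [gaf_dv2 hz0, dotProduct_sub, dotProduct_neg] at h1
    linear_combination h1
  rw [e, e, e] at h
  linear_combination -h

end affine

section linear

variable {σ F : Type*} [Field F] [DecidableEq σ] [Fintype σ]

theorem lin_ext {T : (σ → F) → F} (hadd : ∀ x y, T (x + y) = T x + T y)
    (hsmul : ∀ (c : F) x, T (c • x) = c * T x) (h : ∀ i, T (Pi.single i 1) = 0) (x : σ → F) :
    T x = 0 := by
  let T' : (σ → F) →ₗ[F] F := ⟨⟨T, hadd⟩, hsmul⟩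
  have h1 : T' = 0 := by
    refine LinearMap.pi_ext fun i c => ?_
    have h2 : (Pi.single i c : σ → F) = c • Pi.single i 1 := by
      rw [← Pi.single_smul, smul_eq_mul, mul_one]
    rw [h2, map_smul]
    change c • T (Pi.single i 1) = _
    rw [h, smul_zero, LinearMap.zero_apply]
  exact congrArg (fun f => f x) h1

end linear

section family

variable {σ ι K : Type*} [Field K] [DecidableEq σ] [Fintype σ] [Fintype ι]
  {n m : Type*} [Fintype n] [Fintype m]

/-- The data of the argument for affine families. -/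
structure DatA (B : Matrix m n K) (A : σ → Matrix m n K) (u : ι → m → K) (v : ι → n → K)
    (a : σ → ι → K) (X : Submodule K (n → K)) (w : m → FF σ K) (z : n → FF σ K) : Prop where
  hA : ∀ k, A k = ∑ i, a k i • vecMulVec (u i) (v i)
  hw : ∀ y ∈ ext (FF σ K) X, w ⬝ᵥ (gaf B A *ᵥ y) = 0
  hX : X = hull K (LinearMap.ker (gaf B A).mulVecLin)
  hz0 : gaf B A *ᵥ z = 0
  hzv : ∀ i, up (FF σ K) (v i) ⬝ᵥ z = 0 → ∀ x ∈ X, v i ⬝ᵥ x = 0
  hwu : ∀ i, w ⬝ᵥ up (FF σ K) (u i) = 0 →
    up (FF σ K) (u i) ∈ (ext (FF σ K) X).map (gaf B A).mulVecLin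

/-- linear combinations of the derivatives -/
noncomputable def zb {n : Type*} (z : n → FF σ K) : (σ → FF σ K) →ₗ[FF σ K] (n → FF σ K) :=
  Fintype.linearCombination (FF σ K) fun k => dv (dF k) z

theorem zb_single {n : Type*} (z : n → FF σ K) (k : σ) :
    zb z (Pi.single k 1) = dv (dF k) z := by
  rw [zb, Fintype.linearCombination_apply_single, one_smul]

theorem zb_mem {X : Submodule K (n → K)} {z : n → FF σ K} (hz : z ∈ ext (FF σ K) X)
    (b : σ → FF σ K) : zb z b ∈ ext (FF σ K) X :=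
  Submodule.sum_mem _ fun _ _ => Submodule.smul_mem _ _ (dv_mem _ hz)

theorem kap_single (a : σ → ι → K) (k : σ) :
    kap a (Pi.single k 1) = up (FF σ K) (a k) := by
  rw [kap, Fintype.linearCombination_apply_single, one_smul]

namespace DatA

variable {B : Matrix m n K} {A : σ → Matrix m n K} {u : ι → m → K} {v : ι → n → K}
    {a : σ → ι → K} {X : Submodule K (n → K)} {w : m → FF σ K} {z : n → FF σ K}

theorem ker_le (h : DatA B A u v a X w z) :
    LinearMap.ker (gaf B A).mulVecLin ≤ ext (FF σ K) X := by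
  rw [h.hX]
  exact le_ext_hull _

theorem hz (h : DatA B A u v a X w z) : z ∈ ext (FF σ K) X := h.ker_le h.hz0

theorem map_A (h : DatA B A u v a X w z) (k : σ) (x : n → FF σ K) :
    (A k).map (algebraMap K (FF σ K)) *ᵥ x = BB u v (up (FF σ K) (a k)) x :=
  map_mulVec_eq u v (h.hA k) x

theorem gaf_zb (h : DatA B A u v a X w z) (b : σ → FF σ K) :
    gaf B A *ᵥ zb z b = -BB u v (kap a b) z := by
  rw [zb, kap, Fintype.linearCombination_apply, Fintype.linearCombination_apply, mulVec_sum,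
    BB_sum_left, ← Finset.sum_neg_distrib]
  refine Finset.sum_congr rfl fun k _ => ?_
  rw [mulVec_smul, gaf_dv h.hz0, BB_smul_left, h.map_A, smul_neg]

theorem i0 (h : DatA B A u v a X w z) {x : n → FF σ K} (hx : gaf B A *ᵥ x = 0)
    (b : σ → FF σ K) : w ⬝ᵥ BB u v (kap a b) x = 0 := by
  refine lin_ext (T := fun b => w ⬝ᵥ BB u v (kap a b) x) ?_ ?_ ?_ b
  · intro b c
    simp only [map_add, BB_add_left, dotProduct_add]
  · intro c b
    simp only [map_smul, BB_smul_left, dotProduct_smul, smul_eq_mul]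
  · intro k
    rw [kap_single, ← h.map_A]
    exact id0 h.hw (h.ker_le hx) hx k

theorem i1 (h : DatA B A u v a X w z) (b c : σ → FF σ K) :
    w ⬝ᵥ BB u v (kap a c) (zb z b) = zb w c ⬝ᵥ BB u v (kap a b) z := by
  rw [← sub_eq_zero]
  refine lin_ext (T := fun b => w ⬝ᵥ BB u v (kap a c) (zb z b) -
    zb w c ⬝ᵥ BB u v (kap a b) z) ?_ ?_ ?_ b
  · intro b b'
    simp only [map_add, BB_add_left, BB_add_right, dotProduct_add]
    ring
  · intro r b
    simp only [map_smul, BB_smul_left, BB_smul_right, dotProduct_smul, smul_eq_mul]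
    ring
  · intro k
    refine lin_ext (T := fun c => w ⬝ᵥ BB u v (kap a c) (zb z (Pi.single k 1)) -
      zb w c ⬝ᵥ BB u v (kap a (Pi.single k 1)) z) ?_ ?_ ?_ c
    · intro c c'
      simp only [map_add, BB_add_left, dotProduct_add, add_dotProduct]
      ring
    · intro r c
      simp only [map_smul, BB_smul_left, dotProduct_smul, smul_dotProduct, smul_eq_mul]
      ring
    · intro j
      rw [kap_single, kap_single, zb_single, zb_single, ← h.map_A, ← h.map_A,
        id1 h.hw h.hz h.hz0, sub_self]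

theorem i2 (h : DatA B A u v a X w z) (b c : σ → FF σ K) :
    w ⬝ᵥ BB u v (kap a c) (zb z b) + w ⬝ᵥ BB u v (kap a b) (zb z c) = 0 := by
  refine lin_ext (T := fun b => w ⬝ᵥ BB u v (kap a c) (zb z b) +
    w ⬝ᵥ BB u v (kap a b) (zb z c)) ?_ ?_ ?_ b
  · intro b b'
    simp only [map_add, BB_add_left, BB_add_right, dotProduct_add]
    ring
  · intro r b
    simp only [map_smul, BB_smul_left, BB_smul_right, dotProduct_smul, smul_eq_mul]
    ring
  · intro k
    refine lin_ext (T := fun c => w ⬝ᵥ BB u v (kap a c) (zb z (Pi.single k 1)) +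
      w ⬝ᵥ BB u v (kap a (Pi.single k 1)) (zb z c)) ?_ ?_ ?_ c
    · intro c c'
      simp only [map_add, BB_add_left, BB_add_right, dotProduct_add]
      ring
    · intro r c
      simp only [map_smul, BB_smul_left, BB_smul_right, dotProduct_smul, smul_eq_mul]
      ring
    · intro j
      rw [kap_single, kap_single, zb_single, zb_single, ← h.map_A, ← h.map_A]
      exact id2 h.hw h.hz h.hz0 k j

/-- the third order form -/
noncomputable def q3 (u : ι → m → K) (v : ι → n → K) (a : σ → ι → K) (w : m → FF σ K)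
    (z : n → FF σ K) (c b d : σ → FF σ K) : FF σ K :=
  zb w c ⬝ᵥ BB u v (kap a b) (zb z d)

theorem q3_add1 (c c' b d : σ → FF σ K) :
    q3 u v a w z (c + c') b d = q3 u v a w z c b d + q3 u v a w z c' b d := by
  simp only [q3, map_add, add_dotProduct]

theorem q3_add2 (c b b' d : σ → FF σ K) :
    q3 u v a w z c (b + b') d = q3 u v a w z c b d + q3 u v a w z c b' d := by
  simp only [q3, map_add, BB_add_left, dotProduct_add]

theorem q3_add3 (c b d d' : σ → FF σ K) :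
    q3 u v a w z c b (d + d') = q3 u v a w z c b d + q3 u v a w z c b d' := by
  simp only [q3, map_add, BB_add_right, dotProduct_add]

theorem q3_smul1 (r : FF σ K) (c b d : σ → FF σ K) :
    q3 u v a w z (r • c) b d = r * q3 u v a w z c b d := by
  simp only [q3, map_smul, smul_dotProduct, smul_eq_mul]

theorem q3_smul2 (r : FF σ K) (c b d : σ → FF σ K) :
    q3 u v a w z c (r • b) d = r * q3 u v a w z c b d := by
  simp only [q3, map_smul, BB_smul_left, dotProduct_smul, smul_eq_mul]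

theorem q3_smul3 (r : FF σ K) (c b d : σ → FF σ K) :
    q3 u v a w z c b (r • d) = r * q3 u v a w z c b d := by
  simp only [q3, map_smul, BB_smul_right, dotProduct_smul, smul_eq_mul]

/-- the symmetrised form -/
noncomputable def s3 (u : ι → m → K) (v : ι → n → K) (a : σ → ι → K) (w : m → FF σ K)
    (z : n → FF σ K) (b c d : σ → FF σ K) : FF σ K :=
  q3 u v a w z d c b + q3 u v a w z d b c + (q3 u v a w z c d b + q3 u v a w z c b d) +
    (q3 u v a w z b d c + q3 u v a w z b c d)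

theorem i3 (h : DatA B A u v a X w z) (b c d : σ → FF σ K) : s3 u v a w z b c d = 0 := by
  refine lin_ext (T := fun b => s3 u v a w z b c d) ?_ ?_ ?_ b
  · intro b b'
    simp only [s3, q3_add1, q3_add2, q3_add3]
    ring
  · intro r b
    simp only [s3, q3_smul1, q3_smul2, q3_smul3]
    ring
  intro i
  refine lin_ext (T := fun c => s3 u v a w z (Pi.single i 1) c d) ?_ ?_ ?_ c
  · intro b b'
    simp only [s3, q3_add1, q3_add2, q3_add3]
    ring
  · intro r b
    simp only [s3, q3_smul1, q3_smul2, q3_smul3]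
    ring
  intro j
  refine lin_ext (T := fun d => s3 u v a w z (Pi.single i 1) (Pi.single j 1) d) ?_ ?_ ?_ d
  · intro b b'
    simp only [s3, q3_add1, q3_add2, q3_add3]
    ring
  · intro r b
    simp only [s3, q3_smul1, q3_smul2, q3_smul3]
    ring
  intro k
  simp only [s3, q3, kap_single, zb_single, ← h.map_A]
  exact id3 h.hw h.hz h.hz0 i j k

end DatA

end family

end Pool.Agent.W981.Aff
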