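import Pool.Agent.W981.Blk.Main

/-!
# Pivots of a subspace of `F^ι`
-/

set_option autoImplicit false
set_option linter.unusedSectionVars false

namespace Pool.Agent.W981.Aff

open Pool.Agent.W981.Hyp Module Matrix

variable {F ι : Type*} [Field F] [Fintype ι]

/-- A reduced basis of a subspace. -/
theorem exists_pivots (N : Submodule F (ι → F)) : ∃ (d : ℕ) (e : Fin d → ι) (b : Fin d → ι → F),
    finrank F N = d ∧ (∀ p, b p ∈ N) ∧ (∀ p q, b p (e q) = if p = q then 1 else 0) ∧
    ∀ x ∈ N, x = ∑ p, x (e p) • b p := by
  classical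
  set ev : ι → Dual F N := fun i => (LinearMap.proj i : (ι → F) →ₗ[F] F) ∘ₗ N.subtype with hev
  obtain ⟨d, f, hd, hf, hfs⟩ : ∃ (d : ℕ) (f : Fin d → Dual F N),
      d = finrank F (Submodule.span F (Set.range ev)) ∧ (∀ p, f p ∈ Set.range ev) ∧
      Submodule.span F (Set.range f) = Submodule.span F (Set.range ev) := by
    obtain ⟨f, hf, hfs, -⟩ := Submodule.exists_fun_fin_finrank_span_eq F (Set.range ev)
    exact ⟨_, f, rfl, hf, hfs⟩
  choose e he using hf
  have hdle : d ≤ finrank F N := by
    rw [hd, ← Subspace.dual_finrank_eq (K := F) (V := N)]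
    exact Submodule.finrank_le _
  set Φ : N →ₗ[F] (Fin d → F) := LinearMap.pi fun p => f p with hΦ
  have hΦe : ∀ (x : N) p, Φ x p = (x : ι → F) (e p) := by
    intro x p
    change f p x = _
    rw [← he p]
    rfl
  have hinj : Function.Injective Φ := by
    rw [← LinearMap.ker_eq_bot, eq_bot_iff]
    intro x hx
    rw [Submodule.mem_bot]
    have h1 : ∀ g ∈ Submodule.span F (Set.range ev), g x = 0 := by
      intro g hg
      rw [← hfs] at hg
      induction hg using Submodule.span_induction with
      | mem g hg =>
        obtain ⟨p, rfl⟩ := hg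
        exact congrFun hx p
      | zero => rfl
      | add g g' _ _ h h' => rw [LinearMap.add_apply, h, h', add_zero]
      | smul c g _ h => rw [LinearMap.smul_apply, h, smul_zero]
    ext i
    exact h1 (ev i) (Submodule.subset_span ⟨i, rfl⟩)
  have hNd : finrank F N ≤ d := by
    have := LinearMap.finrank_le_finrank_of_injective hinj
    rwa [finrank_fintype_fun_eq_card, Fintype.card_fin] at this
  have hN : finrank F N = d := le_antisymm hNd hdle
  have hsurj : Function.Surjective Φ := by
    have h1 : finrank F N = finrank F (Fin d → F) := by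
      rw [finrank_fintype_fun_eq_card, Fintype.card_fin, hN]
    exact (LinearMap.injective_iff_surjective_of_finrank_eq_finrank h1).1 hinj
  choose b hb using fun p : Fin d => hsurj (Pi.single p 1)
  refine ⟨d, e, fun p => b p, hN, fun p => (b p).2, fun p q => ?_, fun x hx => ?_⟩
  · change (b p : ι → F) (e q) = _
    rw [← hΦe, hb]
    by_cases h : p = q
    · subst h
      rw [Pi.single_eq_same, if_pos rfl]
    · rw [Pi.single_eq_of_ne (Ne.symm h), if_neg h]
  · have h1 : (⟨x, hx⟩ : N) = ∑ p, x (e p) • b p := by
      apply hinj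
      rw [map_sum]
      funext q
      rw [hΦe, Finset.sum_apply, Finset.sum_eq_single q]
      · rw [map_smul, hb, Pi.smul_apply, Pi.single_eq_same, smul_eq_mul, mul_one]
      · intro p _ hp
        rw [map_smul, hb, Pi.smul_apply, Pi.single_eq_of_ne (Ne.symm hp), smul_zero]
      · intro h
        exact absurd (Finset.mem_univ _) h
    have h2 := congrArg Subtype.val h1
    rw [Submodule.coe_sum] at h2
    exact h2

end Pool.Agent.W981.Aff
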